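import Mathlib

/-!
Iterative rounding for vector balancing (after Beck and Fiala), with the column bound replaced by a
bound on the entrywise `l1` mass of square submatrices.
-/

set_option autoImplicit false

open Finset

namespace Pool.Agent.LibKomlos64

variable {ι κ : Type*}

/-- A fractional point moved along a nonzero direction supported on a set of coordinates of absolute
value less than one reaches the boundary of the cube. -/
theorem exists_move [DecidableEq ι] (x u : ι → ℝ) (F : Finset ι) (hF : ∀ i ∈ F, |x i| < 1)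
    (hu : ∀ i, i ∉ F → u i = 0) (hne : ∃ i, u i ≠ 0) :
    ∃ t : ℝ, (∀ i ∈ F, |x i + t * u i| ≤ 1) ∧ ∃ i ∈ F, |x i + t * u i| = 1 := by
  classical
  set G : Finset ι := F.filter (fun i => u i ≠ 0) with hG
  have hGne : G.Nonempty := by
    obtain ⟨i, hi⟩ := hne
    refine ⟨i, ?_⟩
    rw [hG, mem_filter]
    refine ⟨?_, hi⟩
    by_contra h
    exact hi (hu i h)
  set f : ι → ℝ := fun i => (1 - SignType.sign (u i) * x i) / |u i| with hf
  obtain ⟨a, haG, hamin⟩ := G.exists_min_image f hGne
  have haF : a ∈ F := (mem_filter.1 haG).1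
  have hua : u a ≠ 0 := (mem_filter.1 haG).2
  have hfpos : ∀ i ∈ G, 0 < f i := by
    intro i hi
    have hiF := hF i (mem_filter.1 hi).1
    have hui : u i ≠ 0 := (mem_filter.1 hi).2
    apply div_pos _ (abs_pos.2 hui)
    rcases lt_or_gt_of_ne hui with h | h
    · rw [sign_neg h]
      have := (abs_lt.1 hiF).1
      simp; linarith
    · rw [sign_pos h]
      have := (abs_lt.1 hiF).2
      simp; linarith
  refine ⟨f a, ?_, a, haF, ?_⟩
  · intro i hi
    by_cases hui : u i = 0
    · rw [hui, mul_zero, add_zero]
      exact (hF i hi).le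
    · have hiG : i ∈ G := mem_filter.2 ⟨hi, hui⟩
      have h1 : f a ≤ f i := hamin i hiG
      have h0 : 0 < f a := hfpos a haG
      have hxi := abs_lt.1 (hF i hi)
      have h2 : f a * |u i| ≤ 1 - SignType.sign (u i) * x i := by
        have : f i * |u i| = 1 - SignType.sign (u i) * x i := by
          rw [hf]; simp only; rw [div_mul_cancel₀ _ (abs_ne_zero.2 hui)]
        rw [← this]
        exact mul_le_mul_of_nonneg_right h1 (abs_nonneg _)
      rcases lt_or_gt_of_ne hui with h | h
      · rw [sign_neg h, abs_of_neg h] at h2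
        simp at h2
        have h3 : f a * u i < 0 := mul_neg_of_pos_of_neg h0 h
        rw [abs_le]
        constructor <;> nlinarith
      · rw [sign_pos h, abs_of_pos h] at h2
        simp at h2
        have h3 : 0 < f a * u i := mul_pos h0 h
        rw [abs_le]
        constructor <;> linarith
  · have h2 : f a * |u a| = 1 - SignType.sign (u a) * x a := by
      rw [hf]; simp only; rw [div_mul_cancel₀ _ (abs_ne_zero.2 hua)]
    rcases lt_or_gt_of_ne hua with h | h
    · rw [sign_neg h, abs_of_neg h] at h2
      simp at h2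
      have : x a + f a * u a = -1 := by linarith
      rw [this]; simp
    · rw [sign_pos h, abs_of_pos h] at h2
      simp at h2
      have : x a + f a * u a = 1 := by linarith
      rw [this]; simp

/-- Fewer linear conditions than free coordinates have a nonzero solution. -/
theorem exists_kernel [Fintype ι] [DecidableEq ι] [DecidableEq κ] (v : ι → κ → ℝ) (F : Finset ι) (T : Finset κ)
    (h : T.card < F.card) :
    ∃ u : ι → ℝ, (∀ i, i ∉ F → u i = 0) ∧ (∃ i, u i ≠ 0) ∧ ∀ j ∈ T, ∑ i, u i * v i j = 0 := by
  classical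
  let L : (F → ℝ) →ₗ[ℝ] (T → ℝ) :=
    { toFun := fun g j => ∑ i : F, g i * v i j
      map_add' := by
        intro a b; funext j
        simp [add_mul, Finset.sum_add_distrib]
      map_smul' := by
        intro c a; funext j
        simp [Finset.mul_sum, mul_assoc] }
  have hker : LinearMap.ker L ≠ ⊥ := by
    apply LinearMap.ker_ne_bot_of_finrank_lt
    simp only [Module.finrank_fintype_fun_eq_card, Fintype.card_coe]
    exact h
  obtain ⟨g, hg, hg0⟩ := (Submodule.ne_bot_iff _).1 hker
  refine ⟨fun i => if h : i ∈ F then g ⟨i, h⟩ else 0, ?_, ?_, ?_⟩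
  · intro i hi
    simp [hi]
  · by_contra hcon
    push Not at hcon
    apply hg0
    funext ⟨i, hi⟩
    have := hcon i
    simpa [hi] using this
  · intro j hj
    have h1 : L g ⟨j, hj⟩ = 0 := by
      rw [LinearMap.mem_ker.1 hg]; rfl
    have h2 : ∑ i : F, g i * v i j = 0 := h1
    refine Eq.trans ?_ h2
    rw [← Finset.sum_subset (Finset.subset_univ F)]
    · rw [← Finset.sum_coe_sort F]
      apply Finset.sum_congr rfl
      rintro ⟨i, hi⟩ -
      simp [hi]
    · intro i _ hi
      simp [hi]

/-- The rounding lemma. -/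
theorem round_aux [Fintype ι] [Fintype κ] [DecidableEq ι] [DecidableEq κ] (v : ι → κ → ℝ) (C : ℝ)
    (hC0 : 0 ≤ C)
    (hC : ∀ (S : Finset ι) (T : Finset κ), S.card = T.card →
      ∑ i ∈ S, ∑ j ∈ T, |v i j| ≤ C * S.card) :
    ∀ (m : ℕ) (x : ι → ℝ), (∀ i, |x i| ≤ 1) →
      (univ.filter (fun i => |x i| < 1)).card = m →
      ∃ ε : ι → ℝ, (∀ i, |ε i| = 1) ∧ (∀ i, |x i| = 1 → ε i = x i) ∧
        ∀ j, |∑ i, (ε i - x i) * v i j| ≤ 2 * C := by
  intro m
  induction m using Nat.strong_induction_on with
  | _ m ih =>
    intro x hx hcard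
    set F : Finset ι := univ.filter (fun i => |x i| < 1) with hFdef
    by_cases hF : F = ∅
    · refine ⟨x, ?_, fun _ _ => rfl, ?_⟩
      · intro i
        have : i ∉ F := by rw [hF]; simp
        rw [hFdef, mem_filter] at this
        push Not at this
        exact le_antisymm (hx i) (this (mem_univ i))
      · intro j
        simp only [sub_self, zero_mul, sum_const_zero, abs_zero]
        linarith
    · have hFne : F.Nonempty := nonempty_iff_ne_empty.2 hF
      set T : Finset κ := univ.filter (fun j => C < ∑ i ∈ F, |v i j|) with hT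
      have hTcard : T.card < F.card := by
        by_contra hcon
        push Not at hcon
        obtain ⟨T', hT'sub, hT'card⟩ := exists_subset_card_eq hcon
        have h1 := hC F T' hT'card.symm
        have h2 : C * F.card < ∑ i ∈ F, ∑ j ∈ T', |v i j| := by
          rw [sum_comm]
          have hne : T'.Nonempty := by
            rw [← card_pos, hT'card]; exact card_pos.2 hFne
          calc C * F.card = ∑ j ∈ T', C := by rw [sum_const, hT'card]; simp [mul_comm]
            _ < ∑ j ∈ T', ∑ i ∈ F, |v i j| := by
              apply sum_lt_sum_of_nonempty hne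
              intro j hj
              exact (mem_filter.1 (hT'sub hj)).2
        linarith
      obtain ⟨u, hu0, hune, huT⟩ := exists_kernel v F T hTcard
      have hFlt : ∀ i ∈ F, |x i| < 1 := fun i hi => (mem_filter.1 hi).2
      obtain ⟨t, ht1, a, haF, ha1⟩ := exists_move x u F hFlt hu0 hune
      set x' : ι → ℝ := fun i => x i + t * u i with hx'
      have hx'eq : ∀ i, i ∉ F → x' i = x i := by
        intro i hi
        rw [hx']; simp only; rw [hu0 i hi, mul_zero, add_zero]
      have hx'le : ∀ i, |x' i| ≤ 1 := by
        intro i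
        by_cases hi : i ∈ F
        · exact ht1 i hi
        · rw [hx'eq i hi]; exact hx i
      have hsub : (univ.filter (fun i => |x' i| < 1)) ⊂ F := by
        rw [ssubset_iff_of_subset]
        · refine ⟨a, haF, ?_⟩
          rw [mem_filter]
          push Not
          intro _
          exact ha1.ge
        · intro i hi
          by_contra hiF
          have h2 := (mem_filter.1 hi).2
          rw [hx'eq i hiF] at h2
          exact hiF (mem_filter.2 ⟨mem_univ i, h2⟩)
      have hlt : (univ.filter (fun i => |x' i| < 1)).card < m := by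
        rw [← hcard]; exact card_lt_card hsub
      obtain ⟨ε, hε1, hε2, hε3⟩ := ih _ hlt x' hx'le rfl
      have hεx : ∀ i, |x i| = 1 → ε i = x i := by
        intro i hi
        have hiF : i ∉ F := by
          rw [hFdef, mem_filter]
          push Not
          intro _
          exact hi.ge
        have h1 := hx'eq i hiF
        rw [hε2 i (by rw [h1]; exact hi), h1]
      refine ⟨ε, hε1, hεx, ?_⟩
      intro j
      by_cases hj : j ∈ T
      · have h1 : ∑ i, (ε i - x i) * v i j = ∑ i, (ε i - x' i) * v i j := by
          have h2 : ∑ i, (ε i - x i) * v i j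
              = ∑ i, (ε i - x' i) * v i j + t * ∑ i, u i * v i j := by
            rw [mul_sum, ← sum_add_distrib]
            apply sum_congr rfl
            intro i _
            rw [hx']; ring
          rw [h2, huT j hj, mul_zero, add_zero]
        rw [h1]
        exact hε3 j
      · have hjT : ∑ i ∈ F, |v i j| ≤ C := by
          by_contra hcon
          push Not at hcon
          exact hj (mem_filter.2 ⟨mem_univ j, hcon⟩)
        have h1 : ∑ i, (ε i - x i) * v i j = ∑ i ∈ F, (ε i - x i) * v i j := by
          symm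
          apply sum_subset (subset_univ F)
          intro i _ hi
          have h2 : |x i| = 1 := by
            rw [hFdef, mem_filter] at hi
            push Not at hi
            exact le_antisymm (hx i) (hi (mem_univ i))
          rw [hεx i h2, sub_self, zero_mul]
        rw [h1]
        calc |∑ i ∈ F, (ε i - x i) * v i j| ≤ ∑ i ∈ F, |(ε i - x i) * v i j| :=
              abs_sum_le_sum_abs _ _
          _ ≤ ∑ i ∈ F, 2 * |v i j| := by
              apply sum_le_sum
              intro i _
              rw [abs_mul]
              apply mul_le_mul_of_nonneg_right _ (abs_nonneg _)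
              calc |ε i - x i| ≤ |ε i| + |x i| := abs_sub _ _
                _ ≤ 1 + 1 := add_le_add (hε1 i).le (hx i)
                _ = 2 := by norm_num
          _ = 2 * ∑ i ∈ F, |v i j| := by rw [mul_sum]
          _ ≤ 2 * C := by linarith

/-- If every `k` vectors and every `k` coordinates span entries of total absolute value at most
`C * k`, then some signing has value at most `2 * C`. -/
theorem exists_signs [Fintype ι] [Fintype κ] (v : ι → κ → ℝ) (C : ℝ) (hC0 : 0 ≤ C)
    (hC : ∀ (S : Finset ι) (T : Finset κ), S.card = T.card →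
      ∑ i ∈ S, ∑ j ∈ T, |v i j| ≤ C * S.card) :
    ∃ ε : ι → ℝ, (∀ i, ε i = 1 ∨ ε i = -1) ∧ ∀ j, |∑ i, ε i * v i j| ≤ 2 * C := by
  classical
  obtain ⟨ε, h1, -, h3⟩ := round_aux v C hC0 hC _ (fun _ => 0) (by simp) rfl
  refine ⟨ε, ?_, ?_⟩
  · intro i
    exact eq_or_eq_neg_of_abs_eq (h1 i)
  · intro j
    simpa using h3 j

/-- The Euclidean version: unit ball vectors with sparse square submatrices. -/
theorem exists_signs_sparse [Fintype ι] [Fintype κ] (v : ι → κ → ℝ)
    (hv : ∀ i, ∑ j, (v i j) ^ 2 ≤ 1) (w : ℝ)
    (hw : ∀ (S : Finset ι) (T : Finset κ), S.card = T.card →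
      (((S ×ˢ T).filter (fun q => v q.1 q.2 ≠ 0)).card : ℝ) ≤ w * S.card) :
    ∃ ε : ι → ℝ, (∀ i, ε i = 1 ∨ ε i = -1) ∧ ∀ j, |∑ i, ε i * v i j| ≤ 2 * √w := by
  classical
  apply exists_signs v (√w) (Real.sqrt_nonneg _)
  intro S T hST
  have h1 := hw S T hST
  rw [← sum_product']
  have h2 : ∑ q ∈ S ×ˢ T, |v q.1 q.2|
      = ∑ q ∈ (S ×ˢ T).filter (fun q => v q.1 q.2 ≠ 0), 1 * |v q.1 q.2| := by
    rw [sum_filter]
    apply sum_congr rfl
    intro q _
    split_ifs with h
    · rw [one_mul]
    · push Not at h
      rw [h, abs_zero]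
  have h3 : (∑ q ∈ (S ×ˢ T).filter (fun q => v q.1 q.2 ≠ 0), 1 * |v q.1 q.2|) ^ 2
      ≤ (w * S.card) * S.card := by
    refine (sum_mul_sq_le_sq_mul_sq _ _ _).trans ?_
    apply mul_le_mul
    · simpa using h1
    · calc ∑ q ∈ (S ×ˢ T).filter (fun q => v q.1 q.2 ≠ 0), |v q.1 q.2| ^ 2
          ≤ ∑ q ∈ S ×ˢ T, |v q.1 q.2| ^ 2 :=
            sum_le_sum_of_subset_of_nonneg (filter_subset _ _) (fun _ _ _ => sq_nonneg _)
        _ = ∑ i ∈ S, ∑ j ∈ T, (v i j) ^ 2 := by
            rw [sum_product]
            simp
        _ ≤ ∑ i ∈ S, 1 := by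
            apply sum_le_sum
            intro i _
            exact (sum_le_sum_of_subset_of_nonneg (subset_univ T)
              (fun _ _ _ => sq_nonneg _)).trans (hv i)
        _ = S.card := by simp
    · exact sum_nonneg (fun _ _ => sq_nonneg _)
    · refine le_trans ?_ h1
      exact Nat.cast_nonneg _
  rw [h2]
  rcases Nat.eq_zero_or_pos S.card with hS | hS
  · rw [hS] at h3 ⊢
    simp only [Nat.cast_zero, mul_zero] at h3 ⊢
    nlinarith
  · have hSpos : (0 : ℝ) < S.card := by exact_mod_cast hS
    have hw0 : 0 ≤ w := by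
      by_contra hcon
      push Not at hcon
      have : w * S.card < 0 := mul_neg_of_neg_of_pos hcon hSpos
      have h4 : (0 : ℝ) ≤ (((S ×ˢ T).filter (fun q => v q.1 q.2 ≠ 0)).card : ℝ) :=
        Nat.cast_nonneg _
      linarith
    apply abs_le_of_sq_le_sq' _ (by positivity) |>.2
    rw [mul_pow, Real.sq_sqrt hw0]
    linarith

end Pool.Agent.LibKomlos64
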