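import Mathlib

/-!
Facts on orthogonal projections onto nested subspaces.
-/

set_option autoImplicit false

namespace Pool.Agent.LibKomlos64

open Submodule InnerProductSpace

variable {E : Type*} [NormedAddCommGroup E] [InnerProductSpace ℝ E] [FiniteDimensional ℝ E]

/-- squared norm of the projection -/
noncomputable def nsq (U : Submodule ℝ E) (θ : E) : ℝ := ‖U.starProjection θ‖ ^ 2

theorem nsq_nonneg (U : Submodule ℝ E) (θ : E) : 0 ≤ nsq U θ := sq_nonneg _

theorem nsq_le (U : Submodule ℝ E) (θ : E) : nsq U θ ≤ ‖θ‖ ^ 2 := by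
  have := U.norm_starProjection_apply_le θ
  exact pow_le_pow_left₀ (norm_nonneg _) this 2

theorem inner_sub_proj (U : Submodule ℝ E) (θ u : E) (hu : u ∈ U) :
    ⟪θ - U.starProjection θ, u⟫_ℝ = 0 :=
  U.starProjection_inner_eq_zero θ u hu

theorem inner_proj (U : Submodule ℝ E) (θ u : E) (hu : u ∈ U) :
    ⟪U.starProjection θ, u⟫_ℝ = ⟪θ, u⟫_ℝ := by
  have h := inner_sub_proj U θ u hu
  rw [inner_sub_left] at h
  linarith

theorem inner_proj_zero (U : Submodule ℝ E) (θ u : E) (hu : ∀ w ∈ U, ⟪w, u⟫_ℝ = 0) :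
    ⟪U.starProjection θ, u⟫_ℝ = 0 :=
  hu _ (U.starProjection_apply_mem θ)

/-- difference of nested projections -/
theorem nsq_sub {U W : Submodule ℝ E} (h : U ≤ W) (θ : E) :
    nsq W θ = nsq U θ + ‖W.starProjection θ - U.starProjection θ‖ ^ 2 := by
  have h1 : ⟪U.starProjection θ, W.starProjection θ - U.starProjection θ⟫_ℝ = 0 := by
    rw [real_inner_comm, inner_sub_left]
    have hm := U.starProjection_apply_mem θ
    rw [inner_proj W θ _ (h hm), inner_proj U θ _ hm, sub_self]
  have h2 : W.starProjection θ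
      = U.starProjection θ + (W.starProjection θ - U.starProjection θ) := by abel
  unfold nsq
  conv_lhs => rw [h2]
  rw [norm_add_sq_real, h1]
  ring

theorem nsq_mono {U W : Submodule ℝ E} (h : U ≤ W) (θ : E) : nsq U θ ≤ nsq W θ := by
  rw [nsq_sub h]
  have := sq_nonneg ‖W.starProjection θ - U.starProjection θ‖
  linarith

/-- the component of `p` orthogonal to `V` -/
noncomputable def perp (V : Submodule ℝ E) (p : E) : E := p - V.starProjection p

theorem inner_perp (V : Submodule ℝ E) (p u : E) (hu : u ∈ V) : ⟪perp V p, u⟫_ℝ = 0 :=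
  inner_sub_proj V p u hu

theorem nsq_sup (V : Submodule ℝ E) (p θ : E) :
    ‖perp V p‖ ^ 2 * (nsq (V ⊔ span ℝ {p}) θ - nsq V θ) = ⟪θ, perp V p⟫_ℝ ^ 2 := by
  set b := perp V p with hb
  by_cases hb0 : b = 0
  · rw [hb0]; simp
  · have hbn : ‖b‖ ^ 2 ≠ 0 := by
      simpa using hb0
    set β := ⟪θ, b⟫_ℝ with hβ
    set W := V ⊔ span ℝ {p} with hW
    have hVW : V ≤ W := le_sup_left
    have hpW : p ∈ W := (le_sup_right : span ℝ {p} ≤ W) (mem_span_singleton_self p)
    have hbW : b ∈ W := by
      rw [hb, perp]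
      exact W.sub_mem hpW (hVW (V.starProjection_apply_mem p))
    have hbV : ∀ w ∈ V, ⟪w, b⟫_ℝ = 0 := by
      intro w hw
      rw [real_inner_comm]
      exact inner_perp V p w hw
    have hproj : W.starProjection θ = V.starProjection θ + (β / ‖b‖ ^ 2) • b := by
      apply W.eq_starProjection_of_mem_of_inner_eq_zero
      · exact W.add_mem (hVW (V.starProjection_apply_mem θ)) (W.smul_mem _ hbW)
      · intro w hw
        obtain ⟨y, hy, z, hz, rfl⟩ := mem_sup.1 hw
        obtain ⟨c, rfl⟩ := mem_span_singleton.1 hz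
        -- p = b + P_V p
        have hp : p = b + V.starProjection p := by rw [hb, perp]; abel
        have hr : ∀ y ∈ V, ⟪θ - (V.starProjection θ + (β / ‖b‖ ^ 2) • b), y⟫_ℝ = 0 := by
          intro y hy
          rw [← sub_sub, inner_sub_left, inner_sub_proj V θ y hy, inner_smul_left,
            real_inner_comm, hbV y hy]
          simp
        have hr2 : ⟪θ - (V.starProjection θ + (β / ‖b‖ ^ 2) • b), b⟫_ℝ = 0 := by
          rw [← sub_sub, inner_sub_left, inner_sub_left, inner_smul_left,
            inner_proj_zero V θ b hbV, real_inner_self_eq_norm_sq, ← hβ]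
          simp only [conj_trivial]
          field_simp
          ring
        rw [inner_add_right, hr y hy, inner_smul_right]
        conv_lhs => rw [hp]
        rw [inner_add_right, hr2, hr _ (V.starProjection_apply_mem p)]
        simp
    rw [nsq_sub hVW, hproj]
    have e1 : V.starProjection θ + (β / ‖b‖ ^ 2) • b - V.starProjection θ
        = (β / ‖b‖ ^ 2) • b := by abel
    rw [e1, add_sub_cancel_left, norm_smul, mul_pow, Real.norm_eq_abs, sq_abs]
    field_simp

theorem perp_sub {V' V : Submodule ℝ E} (h : V' ≤ V) (p : E) :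
    ‖perp V' p‖ ^ 2 = ‖perp V p‖ ^ 2 + ‖perp V' p - perp V p‖ ^ 2 := by
  have hc : perp V' p - perp V p = V.starProjection p - V'.starProjection p := by
    rw [perp, perp]; abel
  have hcV : perp V' p - perp V p ∈ V := by
    rw [hc]
    exact V.sub_mem (V.starProjection_apply_mem p) (h (V'.starProjection_apply_mem p))
  have h1 : ⟪perp V p, perp V' p - perp V p⟫_ℝ = 0 := inner_perp V p _ hcV
  have h2 : perp V' p = perp V p + (perp V' p - perp V p) := by abel
  conv_lhs => rw [h2]
  rw [norm_add_sq_real, h1]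
  ring

theorem norm_perp_le (V : Submodule ℝ E) (p : E) : ‖perp V p‖ ≤ ‖p‖ := by
  have h1 : ‖p‖ ^ 2 = ‖V.starProjection p‖ ^ 2 + ‖perp V p‖ ^ 2 := by
    have h2 : p = V.starProjection p + perp V p := by rw [perp]; abel
    have h3 : ⟪V.starProjection p, perp V p⟫_ℝ = 0 := by
      rw [real_inner_comm]
      exact inner_perp V p _ (V.starProjection_apply_mem p)
    conv_lhs => rw [h2]
    rw [norm_add_sq_real, h3]
    ring
  apply le_of_sq_le_sq _ (norm_nonneg _)
  have := sq_nonneg ‖V.starProjection p‖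
  linarith

theorem inner_perp_sub_sq {V' V : Submodule ℝ E} (h : V' ≤ V) (p θ : E) (hp : ‖p‖ ≤ 1) :
    (⟪θ, perp V' p⟫_ℝ - ⟪θ, perp V p⟫_ℝ) ^ 2 ≤ nsq V θ - nsq V' θ := by
  set c := perp V' p - perp V p with hcdef
  have hc : c = V.starProjection p - V'.starProjection p := by
    rw [hcdef, perp, perp]; abel
  have hcV : c ∈ V := by
    rw [hc]
    exact V.sub_mem (V.starProjection_apply_mem p) (h (V'.starProjection_apply_mem p))
  have hcV' : ∀ w ∈ V', ⟪w, c⟫_ℝ = 0 := by
    intro w hw
    rw [hcdef, inner_sub_right, real_inner_comm, inner_perp V' p w hw, real_inner_comm,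
      inner_perp V p w (h hw), sub_self]
  have h1 : ⟪θ, perp V' p⟫_ℝ - ⟪θ, perp V p⟫_ℝ
      = ⟪V.starProjection θ - V'.starProjection θ, c⟫_ℝ := by
    rw [← inner_sub_right, ← hcdef, inner_sub_left, inner_proj V θ c hcV,
      inner_proj_zero V' θ c hcV', sub_zero]
  have h2 : ‖c‖ ≤ 1 := by
    have h3 := perp_sub h p
    have h4 := norm_perp_le V' p
    have h5 : ‖perp V' p‖ ^ 2 ≤ 1 := by
      have := norm_nonneg (perp V' p)
      nlinarith
    rw [← hcdef] at h3
    have h6 := sq_nonneg ‖perp V p‖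
    have h7 : ‖c‖ ^ 2 ≤ 1 := by linarith
    nlinarith [norm_nonneg c]
  have h3 : nsq V θ - nsq V' θ = ‖V.starProjection θ - V'.starProjection θ‖ ^ 2 := by
    rw [nsq_sub h]; ring
  rw [h1, h3]
  have h4 := abs_real_inner_le_norm (V.starProjection θ - V'.starProjection θ) c
  have h5 : |⟪V.starProjection θ - V'.starProjection θ, c⟫_ℝ|
      ≤ ‖V.starProjection θ - V'.starProjection θ‖ := by
    refine h4.trans ?_
    have := norm_nonneg (V.starProjection θ - V'.starProjection θ)
    nlinarith
  rw [← sq_abs]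
  exact pow_le_pow_left₀ (abs_nonneg _) h5 2

end Pool.Agent.LibKomlos64
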