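import Mathlib

/-!
The function `psi x b = exp (-b x) * (cosh b + x * sinh b)`, the exponential moment of a centred
variable with values `1 - x` and `-1 - x`.
-/

set_option autoImplicit false

namespace Pool.Agent.LibKomlos64

open Real Set

/-- exponential moment of a centred two-point variable -/
noncomputable def psi (x b : ℝ) : ℝ := exp (-(b * x)) * (cosh b + x * sinh b)

theorem psi_zero (x : ℝ) : psi x 0 = 1 := by simp [psi]

theorem psi_neg (x b : ℝ) : psi x (-b) = psi (-x) b := by
  simp only [psi, cosh_neg, sinh_neg]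
  ring_nf

/-- moving in `x` at speed `b` makes `psi` affine -/
theorem exp_mul_psi (x b t : ℝ) :
    exp (t * b) * psi (x + t) b = exp (-(b * x)) * (cosh b + (x + t) * sinh b) := by
  rw [psi, ← mul_assoc, ← exp_add]
  ring_nf

theorem cosh_add_pos {x : ℝ} (hx : |x| ≤ 1) (b : ℝ) : 0 < cosh b + x * sinh b := by
  have h := abs_le.1 hx
  have h1 : 0 < exp b := exp_pos b
  have h2 : 0 < exp (-b) := exp_pos (-b)
  rw [cosh_eq, sinh_eq]
  rcases lt_or_ge x 0 with hx0 | hx0
  · nlinarith
  · nlinarith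

theorem psi_pos {x : ℝ} (hx : |x| ≤ 1) (b : ℝ) : 0 < psi x b :=
  mul_pos (exp_pos _) (cosh_add_pos hx b)

theorem sinh_le_mul_cosh {b : ℝ} (hb : 0 ≤ b) : sinh b ≤ b * cosh b := by
  have hmono : MonotoneOn (fun b => b * cosh b - sinh b) (Ici 0) := by
    apply monotoneOn_of_deriv_nonneg (convex_Ici 0)
    · fun_prop
    · fun_prop
    · intro y hy
      rw [interior_Ici] at hy
      have hd : HasDerivAt (fun b => b * cosh b - sinh b) (1 * cosh y + y * sinh y - cosh y) y :=
        ((hasDerivAt_id y).mul (hasDerivAt_cosh y)).sub (hasDerivAt_sinh y)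
      rw [hd.deriv]
      have : 0 ≤ y * sinh y := mul_nonneg (le_of_lt hy) (sinh_nonneg_iff.2 (le_of_lt hy))
      linarith
  have := hmono (mem_Ici.2 le_rfl) (mem_Ici.2 hb) hb
  simp at this
  linarith

theorem hasDerivAt_psi (x b : ℝ) :
    HasDerivAt (psi x) (exp (-(b * x)) * ((1 - x ^ 2) * sinh b)) b := by
  have h1 : HasDerivAt (fun b => exp (-(b * x))) (exp (-(b * x)) * (-(1 * x))) b :=
    (((hasDerivAt_id b).mul_const x).neg).exp
  have h2 : HasDerivAt (fun b => cosh b + x * sinh b) (sinh b + x * cosh b) b :=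
    (hasDerivAt_cosh b).add ((hasDerivAt_sinh b).const_mul x)
  have h3 := h1.mul h2
  have e : exp (-(b * x)) * ((1 - x ^ 2) * sinh b)
      = exp (-(b * x)) * (-(1 * x)) * (cosh b + x * sinh b)
        + exp (-(b * x)) * (sinh b + x * cosh b) := by ring
  rw [e]
  exact h3

theorem psi_mono {x : ℝ} (hx : |x| ≤ 1) {b b' : ℝ} (hb : 0 ≤ b) (hbb' : b ≤ b') :
    psi x b ≤ psi x b' := by
  have hmono : MonotoneOn (psi x) (Ici 0) := by
    apply monotoneOn_of_deriv_nonneg (convex_Ici 0)
    · exact fun y _ => (hasDerivAt_psi x y).continuousAt.continuousWithinAt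
    · exact fun y _ => (hasDerivAt_psi x y).differentiableAt.differentiableWithinAt
    · intro y hy
      rw [interior_Ici] at hy
      rw [(hasDerivAt_psi x y).deriv]
      have h1 : 0 ≤ 1 - x ^ 2 := by
        have := abs_le.1 hx
        nlinarith
      exact mul_nonneg (exp_pos _).le (mul_nonneg h1 (sinh_nonneg_iff.2 (le_of_lt hy)))
  exact hmono (mem_Ici.2 hb) (mem_Ici.2 (hb.trans hbb')) hbb'

theorem psi_key {x : ℝ} (hx : |x| ≤ 1) {b : ℝ} (hb : 0 ≤ b) :
    (1 - x ^ 2) * sinh b ≤ 2 * b * (cosh b + x * sinh b) := by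
  have h1 := sinh_le_mul_cosh hb
  have h2 : 0 ≤ sinh b := sinh_nonneg_iff.2 hb
  have h3 : sinh b < cosh b := sinh_lt_cosh b
  have h4 := abs_le.1 hx
  rcases lt_or_ge x 0 with hx0 | hx0
  · -- x < 0 : (1 + x) (1 - x) sinh b, and cosh + x sinh >= (1 + x) cosh
    have h5 : (1 + x) * cosh b ≤ cosh b + x * sinh b := by nlinarith
    have h6 : (1 - x ^ 2) * sinh b = (1 + x) * ((1 - x) * sinh b) := by ring
    have h7 : (1 - x) * sinh b ≤ 2 * (b * cosh b) := by nlinarith
    calc (1 - x ^ 2) * sinh b = (1 + x) * ((1 - x) * sinh b) := h6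
      _ ≤ (1 + x) * (2 * (b * cosh b)) := by
          apply mul_le_mul_of_nonneg_left h7; linarith
      _ = 2 * b * ((1 + x) * cosh b) := by ring
      _ ≤ 2 * b * (cosh b + x * sinh b) := by
          apply mul_le_mul_of_nonneg_left h5; linarith
  · have h5 : cosh b ≤ cosh b + x * sinh b := by nlinarith
    have h6 : (1 - x ^ 2) * sinh b ≤ sinh b := by nlinarith [sq_nonneg x]
    have hc : 0 < cosh b := cosh_pos b
    calc (1 - x ^ 2) * sinh b ≤ sinh b := h6
      _ ≤ b * cosh b := h1
      _ ≤ 2 * b * cosh b := by nlinarith [mul_nonneg hb hc.le]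
      _ ≤ 2 * b * (cosh b + x * sinh b) := by
          apply mul_le_mul_of_nonneg_left h5; linarith

theorem psi_anti {x : ℝ} (hx : |x| ≤ 1) {b b' : ℝ} (hb : 0 ≤ b) (hbb' : b ≤ b') :
    psi x b' * exp (-b' ^ 2) ≤ psi x b * exp (-b ^ 2) := by
  have hd : ∀ y, HasDerivAt (fun b => psi x b * exp (-b ^ 2))
      (exp (-(y * x)) * ((1 - x ^ 2) * sinh y) * exp (-y ^ 2)
        + psi x y * (exp (-y ^ 2) * (-(2 * y)))) y := by
    intro y
    have h1 : HasDerivAt (fun b : ℝ => exp (-b ^ 2)) (exp (-y ^ 2) * (-(2 * y))) y := by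
      have h0 : HasDerivAt (fun b : ℝ => -b ^ 2) (-(2 * y)) y := by
        have h00 : HasDerivAt (fun b : ℝ => b ^ 2) (2 * y) y := by
          simpa using hasDerivAt_pow 2 y
        exact h00.fun_neg
      exact h0.exp
    exact (hasDerivAt_psi x y).mul h1
  have hanti : AntitoneOn (fun b => psi x b * exp (-b ^ 2)) (Ici 0) := by
    apply antitoneOn_of_deriv_nonpos (convex_Ici 0)
    · exact fun y _ => (hd y).continuousAt.continuousWithinAt
    · exact fun y _ => (hd y).differentiableAt.differentiableWithinAt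
    · intro y hy
      rw [interior_Ici] at hy
      rw [(hd y).deriv]
      have h1 := psi_key hx (le_of_lt hy)
      have h2 : exp (-(y * x)) * ((1 - x ^ 2) * sinh y) * exp (-y ^ 2)
          + psi x y * (exp (-y ^ 2) * (-(2 * y)))
          = exp (-(y * x)) * exp (-y ^ 2) *
            ((1 - x ^ 2) * sinh y - 2 * y * (cosh y + x * sinh y)) := by
        rw [psi]; ring
      rw [h2]
      apply mul_nonpos_of_nonneg_of_nonpos
      · exact (mul_pos (exp_pos _) (exp_pos _)).le
      · linarith
  exact hanti (mem_Ici.2 hb) (mem_Ici.2 (hb.trans hbb')) hbb'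

theorem one_le_psi {x : ℝ} (hx : |x| ≤ 1) (b : ℝ) : 1 ≤ psi x b := by
  rcases le_total 0 b with hb | hb
  · rw [← psi_zero x]; exact psi_mono hx le_rfl hb
  · rw [← neg_neg b, psi_neg, ← psi_zero (-x)]
    exact psi_mono (by rwa [abs_neg]) le_rfl (by linarith)

theorem psi_le {x : ℝ} (hx : |x| ≤ 1) (b : ℝ) : psi x b * exp (-b ^ 2) ≤ 1 := by
  rcases le_total 0 b with hb | hb
  · have := psi_anti hx le_rfl hb
    simpa [psi_zero] using this
  · have := psi_anti (x := -x) (by rwa [abs_neg]) le_rfl (b' := -b) (by linarith)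
    rw [psi_neg, neg_neg] at this
    simpa [psi_zero] using this

/-- the comparison used when the balancing direction changes; `A, A', B, B'` stand for the
squared norms of the projections of the test vector -/
theorem psi_compare {x : ℝ} (hx : |x| ≤ 1) (b b' V V' W W' s s' : ℝ)
    (hV : V' ≤ V) (hW : W' ≤ W) (hVW : V ≤ W) (hVW' : V' ≤ W')
    (hs : 0 ≤ s) (hss' : s ≤ s') (hs1 : s' ≤ 1)
    (hb : s * (W - V) = b ^ 2) (hb' : s' * (W' - V') = b' ^ 2)
    (hbb' : (b' - b) ^ 2 ≤ V - V') :
    psi x b' * exp (-b' ^ 2 + V' + W') ≤ psi x b * exp (-b ^ 2 + V + W) := by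
  have hrw : ∀ c A B : ℝ, psi x c * exp (-c ^ 2 + A + B)
      = (psi x c * exp (-c ^ 2)) * exp (A + B) := by
    intro c A B
    rw [mul_assoc, ← exp_add]; ring_nf
  have hpos : ∀ c, 0 < psi x c := psi_pos hx
  -- case A
  have caseA : psi x b' * exp (-b' ^ 2) ≤ psi x b * exp (-b ^ 2) →
      psi x b' * exp (-b' ^ 2 + V' + W') ≤ psi x b * exp (-b ^ 2 + V + W) := by
    intro h
    rw [hrw, hrw]
    apply mul_le_mul h _ (exp_pos _).le (mul_pos (hpos b) (exp_pos _)).le
    exact exp_le_exp.2 (by linarith)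
  -- case B
  have caseB : psi x b' ≤ psi x b → b' ^ 2 < b ^ 2 →
      psi x b' * exp (-b' ^ 2 + V' + W') ≤ psi x b * exp (-b ^ 2 + V + W) := by
    intro h h2
    apply mul_le_mul h _ (exp_pos _).le (hpos b).le
    apply exp_le_exp.2
    have hs0 : 0 < s := by
      rcases eq_or_lt_of_le hs with h0 | h0
      · exfalso
        have hb0 : b ^ 2 = 0 := by rw [← hb, ← h0]; ring
        nlinarith [sq_nonneg b']
      · exact h0
    have hs0' : 0 < s' := hs0.trans_le hss'
    have hX : 0 ≤ W - V := by linarith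
    have hX' : 0 ≤ W' - V' := by linarith
    have h4 : s' * (W' - V') ≤ s' * (W - V) := by
      rw [hb']
      have : s * (W - V) ≤ s' * (W - V) := mul_le_mul_of_nonneg_right hss' hX
      linarith
    have h5 : W' - V' ≤ W - V := le_of_mul_le_mul_left h4 hs0'
    have h3 : (W' - V') - b' ^ 2 ≤ (W - V) - b ^ 2 := by
      rw [← hb, ← hb']
      nlinarith
    linarith
  -- case C
  have caseC : b ^ 2 ≤ (b' - b) ^ 2 →
      psi x b' * exp (-b' ^ 2 + V' + W') ≤ psi x b * exp (-b ^ 2 + V + W) := by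
    intro h
    have h1 := psi_le hx b'
    have h2 := one_le_psi hx b
    have h3 : psi x b' * exp (-b' ^ 2 + V' + W') ≤ 1 * exp (V' + W') := by
      rw [hrw]
      exact mul_le_mul_of_nonneg_right h1 (exp_pos _).le
    have h4 : 1 * exp (-b ^ 2 + V + W) ≤ psi x b * exp (-b ^ 2 + V + W) :=
      mul_le_mul_of_nonneg_right h2 (exp_pos _).le
    have h5 : exp (V' + W') ≤ exp (-b ^ 2 + V + W) := exp_le_exp.2 (by linarith)
    linarith
  rcases le_total 0 b with hb0 | hb0
  · rcases le_or_gt b b' with h | h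
    · exact caseA (psi_anti hx hb0 h)
    · rcases le_or_gt 0 b' with h' | h'
      · exact caseB (psi_mono hx h' h.le) (by nlinarith)
      · exact caseC (by nlinarith)
  · rcases le_or_gt b' b with h | h
    · apply caseA
      have := psi_anti (x := -x) (by rwa [abs_neg]) (b := -b) (b' := -b') (by linarith)
        (by linarith)
      rw [psi_neg, psi_neg, neg_neg] at this
      simpa using this
    · rcases le_or_gt b' 0 with h' | h'
      · apply caseB
        · have := psi_mono (x := -x) (by rwa [abs_neg]) (b := -b') (b' := -b) (by linarith)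
            (by linarith)
          rw [psi_neg, psi_neg, neg_neg] at this
          exact this
        · nlinarith
      · exact caseC (by nlinarith)

end Pool.Agent.LibKomlos64
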