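import Mathlib
import Pool.Agent.LibKomlos64.Psi
import Pool.Agent.LibKomlos64.Proj

/-!
A derandomised Gram-Schmidt walk in which coordinates may be frozen at any time.
-/

set_option autoImplicit false
set_option linter.unusedSectionVars false

open Finset InnerProductSpace

namespace Pool.Agent.LibKomlos64

/-- first hitting time of the boundary -/
theorem exists_hit {K : Type*} (F : Finset K) (α β M : K → ℝ) (hF : ∀ k ∈ F, |α k| < M k)
    (hβ : ∀ k ∈ F, β k ≠ 0) (hne : F.Nonempty) :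
    ∃ t : ℝ, 0 < t ∧ (∀ k ∈ F, |α k + t * β k| ≤ M k) ∧ ∃ k ∈ F, |α k + t * β k| = M k := by
  set f : K → ℝ := fun k => if 0 < β k then (M k - α k) / β k else (M k + α k) / (-β k) with hf
  obtain ⟨a, haF, hamin⟩ := F.exists_min_image f hne
  have hfpos : ∀ k ∈ F, 0 < f k := by
    intro k hk
    have h1 := abs_lt.1 (hF k hk)
    rw [hf]; simp only
    split_ifs with h
    · exact div_pos (by linarith) h
    · have : β k < 0 := lt_of_le_of_ne (not_lt.1 h) (hβ k hk)
      exact div_pos (by linarith) (by linarith)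
  refine ⟨f a, hfpos a haF, ?_, a, haF, ?_⟩
  · intro k hk
    have h1 : f a ≤ f k := hamin k hk
    have h0 := hfpos a haF
    have h2 := abs_lt.1 (hF k hk)
    rw [abs_le]
    rcases lt_or_gt_of_ne (hβ k hk) with h | h
    · have h3 : f k = (M k + α k) / (-β k) := by
        rw [hf]; simp only; rw [if_neg (not_lt.2 h.le)]
      rw [h3, le_div_iff₀ (by linarith)] at h1
      have h4 : f a * β k < 0 := mul_neg_of_pos_of_neg h0 h
      constructor <;> nlinarith
    · have h3 : f k = (M k - α k) / β k := by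
        rw [hf]; simp only; rw [if_pos h]
      rw [h3, le_div_iff₀ h] at h1
      have h4 : 0 < f a * β k := mul_pos h0 h
      constructor <;> linarith
  · have h2 := abs_lt.1 (hF a haF)
    have hM : 0 < M a := by linarith
    rcases lt_or_gt_of_ne (hβ a haF) with h | h
    · have h3 : f a = (M a + α a) / (-β a) := by
        rw [hf]; simp only; rw [if_neg (not_lt.2 h.le)]
      have h4 : f a * β a = -(M a + α a) := by
        rw [h3, div_neg, neg_mul, div_mul_cancel₀ _ h.ne]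
      have : α a + f a * β a = -M a := by linarith
      rw [this, abs_neg, abs_of_pos hM]
    · have h3 : f a = (M a - α a) / β a := by
        rw [hf]; simp only; rw [if_pos h]
      have h4 : f a * β a = M a - α a := by
        rw [h3, div_mul_cancel₀ _ h.ne']
      have : α a + f a * β a = M a := by linarith
      rw [this, abs_of_pos hM]

variable {ι : Type*} [Fintype ι] [DecidableEq ι]
variable {E : Type*} [NormedAddCommGroup E] [InnerProductSpace ℝ E] [FiniteDimensional ℝ E]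

/-- span of the vectors with index in `L` -/
noncomputable def sp (V : ι → E) (L : Finset ι) : Submodule ℝ E :=
  Submodule.span ℝ (V '' (L : Set ι))

theorem sp_mono (V : ι → E) {L L' : Finset ι} (h : L' ⊆ L) : sp V L' ≤ sp V L :=
  Submodule.span_mono (Set.image_mono (by exact_mod_cast h))

theorem sp_erase (V : ι → E) {L : Finset ι} {p : ι} (hp : p ∈ L) :
    sp V L = sp V (L.erase p) ⊔ Submodule.span ℝ {V p} := by
  rw [sp, sp, ← Submodule.span_union]
  congr 1
  rw [← Set.image_singleton, ← Set.image_union]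
  congr 1
  ext i
  simp only [Finset.mem_coe, Set.mem_union, mem_erase, Set.mem_singleton_iff]
  constructor
  · intro h
    by_cases hi : i = p
    · exact Or.inr hi
    · exact Or.inl ⟨hi, h⟩
  · rintro (h | h)
    · exact h.2
    · rw [h]; exact hp

/-- total displacement -/
noncomputable def disp (V : ι → E) (x0 x : ι → ℝ) : E := ∑ i, (x i - x0 i) • V i

/-- the speed of `θ` in the current direction -/
noncomputable def spd (V : ι → E) (θ : E) (L : Finset ι) (p : ι) : ℝ :=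
  ⟪θ, perp (sp V (L.erase p)) (V p)⟫_ℝ

/-- the potential -/
noncomputable def pot (V : ι → E) (x0 : ι → ℝ) (θ : E) (x : ι → ℝ) (L : Finset ι) (p : ι) : ℝ :=
  Real.exp ⟪θ, disp V x0 x⟫_ℝ * (psi (x p) (spd V θ L p) *
    Real.exp (-(spd V θ L p) ^ 2 + nsq (sp V (L.erase p)) θ + nsq (sp V L) θ))

theorem spd_sq (V : ι → E) (θ : E) {L : Finset ι} {p : ι} (hp : p ∈ L) :
    ‖perp (sp V (L.erase p)) (V p)‖ ^ 2 * (nsq (sp V L) θ - nsq (sp V (L.erase p)) θ)
      = spd V θ L p ^ 2 := by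
  rw [spd, sp_erase V hp]
  exact nsq_sup _ _ _

theorem norm_perp_sq_le (V : ι → E) (U : Submodule ℝ E) (p : ι) (hV : ‖V p‖ ≤ 1) :
    ‖perp U (V p)‖ ^ 2 ≤ 1 := by
  have h := norm_perp_le U (V p)
  have := norm_nonneg (perp U (V p))
  nlinarith

theorem spd_sq_le (V : ι → E) (θ : E) {L : Finset ι} {p : ι} (hp : p ∈ L) (hV : ‖V p‖ ≤ 1) :
    spd V θ L p ^ 2 ≤ nsq (sp V L) θ - nsq (sp V (L.erase p)) θ := by
  rw [← spd_sq V θ hp]
  have h1 : 0 ≤ nsq (sp V L) θ - nsq (sp V (L.erase p)) θ := by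
    have := nsq_mono (sp_mono V (erase_subset p L)) θ
    linarith
  have h2 := norm_perp_sq_le V (sp V (L.erase p)) p hV
  nlinarith

theorem pot_keep (V : ι → E) (x0 : ι → ℝ) (θ : E) (x : ι → ℝ) {L L' : Finset ι} {p : ι}
    (hV : ‖V p‖ ≤ 1) (hx : |x p| ≤ 1) (hL : L' ⊆ L) (hp : p ∈ L') :
    pot V x0 θ x L' p ≤ pot V x0 θ x L p := by
  unfold pot
  apply mul_le_mul_of_nonneg_left _ (Real.exp_pos _).le
  have hpL : p ∈ L := hL hp
  have he : sp V (L'.erase p) ≤ sp V (L.erase p) := sp_mono V (erase_subset_erase p hL)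
  apply psi_compare hx (s := ‖perp (sp V (L.erase p)) (V p)‖ ^ 2)
    (s' := ‖perp (sp V (L'.erase p)) (V p)‖ ^ 2)
  · exact nsq_mono he θ
  · exact nsq_mono (sp_mono V hL) θ
  · exact nsq_mono (sp_mono V (erase_subset p L)) θ
  · exact nsq_mono (sp_mono V (erase_subset p L')) θ
  · positivity
  · rw [perp_sub he (V p)]
    have := sq_nonneg ‖perp (sp V (L'.erase p)) (V p) - perp (sp V (L.erase p)) (V p)‖
    linarith
  · exact norm_perp_sq_le V _ p hV
  · exact spd_sq V θ hpL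
  · exact spd_sq V θ hp
  · exact inner_perp_sub_sq he (V p) θ hV

theorem exp_le_pot (V : ι → E) (x0 : ι → ℝ) (θ : E) (x : ι → ℝ) {L : Finset ι} {p : ι}
    (hV : ‖V p‖ ≤ 1) (hx : |x p| ≤ 1) (hp : p ∈ L) :
    Real.exp ⟪θ, disp V x0 x⟫_ℝ * Real.exp (2 * nsq (sp V (L.erase p)) θ)
      ≤ pot V x0 θ x L p := by
  unfold pot
  apply mul_le_mul_of_nonneg_left _ (Real.exp_pos _).le
  have h1 := one_le_psi hx (spd V θ L p)
  have h2 := spd_sq_le V θ hp hV
  have h3 : Real.exp (2 * nsq (sp V (L.erase p)) θ)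
      ≤ Real.exp (-(spd V θ L p) ^ 2 + nsq (sp V (L.erase p)) θ + nsq (sp V L) θ) :=
    Real.exp_le_exp.2 (by linarith)
  calc Real.exp (2 * nsq (sp V (L.erase p)) θ)
      ≤ 1 * Real.exp (-(spd V θ L p) ^ 2 + nsq (sp V (L.erase p)) θ + nsq (sp V L) θ) := by
        rw [one_mul]; exact h3
    _ ≤ _ := mul_le_mul_of_nonneg_right h1 (Real.exp_pos _).le

theorem pot_le (V : ι → E) (x0 : ι → ℝ) (θ : E) (x : ι → ℝ) {L : Finset ι} {p : ι}
    (hx : |x p| ≤ 1) :
    pot V x0 θ x L p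
      ≤ Real.exp ⟪θ, disp V x0 x⟫_ℝ * Real.exp (2 * nsq (sp V L) θ) := by
  unfold pot
  apply mul_le_mul_of_nonneg_left _ (Real.exp_pos _).le
  have h1 := psi_le hx (spd V θ L p)
  have h2 := nsq_mono (sp_mono V (erase_subset p L)) θ
  have h3 : psi (x p) (spd V θ L p) *
      Real.exp (-(spd V θ L p) ^ 2 + nsq (sp V (L.erase p)) θ + nsq (sp V L) θ)
      = (psi (x p) (spd V θ L p) * Real.exp (-(spd V θ L p) ^ 2)) *
        Real.exp (nsq (sp V (L.erase p)) θ + nsq (sp V L) θ) := by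
    rw [mul_assoc, ← Real.exp_add]; ring_nf
  rw [h3]
  calc _ ≤ 1 * Real.exp (nsq (sp V (L.erase p)) θ + nsq (sp V L) θ) :=
        mul_le_mul_of_nonneg_right h1 (Real.exp_pos _).le
    _ ≤ _ := by
        rw [one_mul]
        exact Real.exp_le_exp.2 (by linarith)

theorem pot_new (V : ι → E) (x0 : ι → ℝ) (θ : E) (x : ι → ℝ) {L L' : Finset ι} {p p' : ι}
    (hV : ‖V p‖ ≤ 1) (hx : |x p| ≤ 1) (hx' : |x p'| ≤ 1) (hp : p ∈ L) (hL : L' ⊆ L.erase p) :
    pot V x0 θ x L' p' ≤ pot V x0 θ x L p := by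
  refine (pot_le V x0 θ x hx').trans (le_trans ?_ (exp_le_pot V x0 θ x hV hx hp))
  apply mul_le_mul_of_nonneg_left _ (Real.exp_pos _).le
  apply Real.exp_le_exp.2
  have := nsq_mono (sp_mono V hL) θ
  linarith

/-- the balancing direction -/
theorem exists_direction (V : ι → E) {L : Finset ι} {p : ι} (hp : p ∈ L) :
    ∃ u : ι → ℝ, u p = 1 ∧ (∀ i, i ∉ L → u i = 0) ∧
      ∑ i, u i • V i = perp (sp V (L.erase p)) (V p) := by
  have h1 : (sp V (L.erase p)).starProjection (V p) ∈ sp V (L.erase p) :=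
    Submodule.starProjection_apply_mem _ _
  have h2 : ∃ c : ι → ℝ, ∑ i ∈ L.erase p, c i • V i
      = (sp V (L.erase p)).starProjection (V p) := by
    have h3 := h1
    rw [sp] at h3
    rw [Finsupp.mem_span_image_iff_linearCombination] at h3
    obtain ⟨c, hc, hc2⟩ := h3
    refine ⟨c, Eq.trans ?_ hc2⟩
    rw [Finsupp.linearCombination_apply, Finsupp.sum]
    symm
    apply sum_subset
    · exact_mod_cast hc
    · intro i _ hi
      rw [Finsupp.notMem_support_iff.1 hi, zero_smul]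
  obtain ⟨c, hc⟩ := h2
  refine ⟨fun i => if i = p then 1 else if i ∈ L then -c i else 0, by simp, ?_, ?_⟩
  · intro i hi
    have : i ≠ p := by rintro rfl; exact hi hp
    simp [this, hi]
  · rw [perp, ← hc]
    rw [← add_sum_erase univ _ (mem_univ p)]
    simp only [if_true, one_smul]
    rw [sub_eq_add_neg]
    congr 1
    rw [← sum_neg_distrib]
    symm
    have hsub : L.erase p ⊆ univ.erase p := erase_subset_erase p (subset_univ L)
    rw [← sum_subset hsub]
    · apply sum_congr rfl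
      intro i hi
      have h1 := mem_erase.1 hi
      simp [h1.1, h1.2]
    · intro i hi hi2
      have h1 := mem_erase.1 hi
      have h2 : i ∉ L := fun h => hi2 (mem_erase.2 ⟨h1.1, h⟩)
      simp [h1.1, h2]

/-- along the balancing direction the potential is affine -/
theorem pot_move (V : ι → E) (x0 : ι → ℝ) (θ : E) (x u : ι → ℝ) {L : Finset ι} {p : ι}
    (hup : u p = 1) (hu : ∑ i, u i • V i = perp (sp V (L.erase p)) (V p)) :
    ∃ B : ℝ, ∀ t : ℝ, pot V x0 θ (fun i => x i + t * u i) L p = pot V x0 θ x L p + t * B := by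
  set β := spd V θ L p with hβ
  set G := Real.exp (-β ^ 2 + nsq (sp V (L.erase p)) θ + nsq (sp V L) θ) with hG
  have hdisp : ∀ t : ℝ, ⟪θ, disp V x0 (fun i => x i + t * u i)⟫_ℝ
      = ⟪θ, disp V x0 x⟫_ℝ + t * β := by
    intro t
    have h1 : disp V x0 (fun i => x i + t * u i)
        = disp V x0 x + t • perp (sp V (L.erase p)) (V p) := by
      rw [disp, disp, ← hu, smul_sum, ← sum_add_distrib]
      apply sum_congr rfl
      intro i _
      rw [smul_smul, ← add_smul]
      congr 1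
      ring
    rw [h1, inner_add_right, inner_smul_right]
    rfl
  have hpot : ∀ t : ℝ, pot V x0 θ (fun i => x i + t * u i) L p
      = Real.exp ⟪θ, disp V x0 x⟫_ℝ * (Real.exp (-(β * x p)) *
        (Real.cosh β + (x p + t) * Real.sinh β)) * G := by
    intro t
    unfold pot
    rw [← hβ, ← hG, hdisp t, Real.exp_add]
    simp only [hup, mul_one]
    have := exp_mul_psi (x p) β t
    calc Real.exp ⟪θ, disp V x0 x⟫_ℝ * Real.exp (t * β) * (psi (x p + t) β * G)
        = Real.exp ⟪θ, disp V x0 x⟫_ℝ * (Real.exp (t * β) * psi (x p + t) β) * G := by ring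
      _ = _ := by rw [this]
  refine ⟨Real.exp ⟪θ, disp V x0 x⟫_ℝ * (Real.exp (-(β * x p)) * Real.sinh β) * G, ?_⟩
  intro t
  have h0 := hpot 0
  simp only [zero_mul, add_zero] at h0
  rw [hpot t]
  have h00 : pot V x0 θ x L p = Real.exp ⟪θ, disp V x0 x⟫_ℝ * (Real.exp (-(β * x p)) *
        (Real.cosh β + (x p) * Real.sinh β)) * G := h0
  rw [h00]
  ring

/-- one step of the walk -/
theorem walk_step {κ τ : Type*} (V : ι → E) (a : κ → ι → ℝ) (T : Finset κ) (Λ : ℝ)
    (Θ : Finset τ) (θ : τ → E) (x0 x : ι → ℝ) (L : Finset ι) (p : ι) (hp : p ∈ L)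
    (hx : ∀ i ∈ L, |x i| < 1)
    (hrow : ∀ j ∈ T, |∑ i, a j i * (x i - x0 i)| ≤ Λ)
    (hrow2 : ∀ j ∈ T, |∑ i, a j i * (x i - x0 i)| = Λ → ∀ i ∈ L, a j i = 0) :
    ∃ x' : ι → ℝ, (∀ i, i ∉ L → x' i = x i) ∧ (∀ i ∈ L, |x' i| ≤ 1) ∧
      (∀ j ∈ T, |∑ i, a j i * (x' i - x0 i)| ≤ Λ) ∧
      ((∃ i ∈ L, |x' i| = 1) ∨
        ∃ j ∈ T, |∑ i, a j i * (x' i - x0 i)| = Λ ∧ ∃ i ∈ L, a j i ≠ 0) ∧
      ∑ k ∈ Θ, pot V x0 (θ k) x' L p ≤ ∑ k ∈ Θ, pot V x0 (θ k) x L p := by
  classical
  obtain ⟨u, hup, huL, husum⟩ := exists_direction V hp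
  choose B hB using fun k : τ => pot_move V x0 (θ k) x u (L := L) hup husum
  -- choose the sign
  obtain ⟨σ, hσ, hσB⟩ : ∃ σ : ℝ, |σ| = 1 ∧ σ * ∑ k ∈ Θ, B k ≤ 0 := by
    rcases le_total (∑ k ∈ Θ, B k) 0 with h | h
    · exact ⟨1, by simp, by linarith⟩
    · exact ⟨-1, by simp, by linarith⟩
  have hσ0 : σ ≠ 0 := by
    intro h; rw [h] at hσ; simp at hσ
  -- row speeds
  set g : κ → ℝ := fun j => ∑ i, a j i * u i with hg
  have hgval : ∀ j (t : ℝ), ∑ i, a j i * (x i + t * u i - x0 i)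
      = ∑ i, a j i * (x i - x0 i) + t * g j := by
    intro j t
    rw [hg, mul_sum, ← sum_add_distrib]
    apply sum_congr rfl
    intro i _
    ring
  set F : Finset (ι ⊕ κ) := (L.filter (fun i => u i ≠ 0)).disjSum (T.filter (fun j => g j ≠ 0))
    with hF
  set α : ι ⊕ κ → ℝ := Sum.elim x (fun j => ∑ i, a j i * (x i - x0 i)) with hα
  set b : ι ⊕ κ → ℝ := Sum.elim (fun i => σ * u i) (fun j => σ * g j) with hb
  set M : ι ⊕ κ → ℝ := Sum.elim (fun _ => 1) (fun _ => Λ) with hM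
  have h1 : ∀ k ∈ F, |α k| < M k := by
    intro k hk
    rcases k with i | j
    · rw [hF, inl_mem_disjSum, mem_filter] at hk
      exact hx i hk.1
    · rw [hF, inr_mem_disjSum, mem_filter] at hk
      change |∑ i, a j i * (x i - x0 i)| < Λ
      apply lt_of_le_of_ne (hrow j hk.1)
      intro heq
      apply hk.2
      rw [hg]
      apply sum_eq_zero
      intro i _
      by_cases hi : i ∈ L
      · rw [hrow2 j hk.1 heq i hi, zero_mul]
      · rw [huL i hi, mul_zero]
  have h2 : ∀ k ∈ F, b k ≠ 0 := by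
    intro k hk
    rcases k with i | j
    · rw [hF, inl_mem_disjSum, mem_filter] at hk
      exact mul_ne_zero hσ0 hk.2
    · rw [hF, inr_mem_disjSum, mem_filter] at hk
      exact mul_ne_zero hσ0 hk.2
  have h3 : F.Nonempty := by
    refine ⟨Sum.inl p, ?_⟩
    rw [hF, inl_mem_disjSum, mem_filter]
    refine ⟨hp, ?_⟩
    rw [hup]; norm_num
  obtain ⟨t, ht, htle, k0, hk0, hk0eq⟩ := exists_hit F α b M h1 h2 h3
  refine ⟨fun i => x i + (t * σ) * u i, ?_, ?_, ?_, ?_, ?_⟩
  · intro i hi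
    simp only
    rw [huL i hi, mul_zero, add_zero]
  · intro i hi
    simp only
    by_cases hui : u i = 0
    · rw [hui, mul_zero, add_zero]; exact (hx i hi).le
    · have := htle (Sum.inl i) (by rw [hF, inl_mem_disjSum, mem_filter]; exact ⟨hi, hui⟩)
      simp only [hα, hb, hM, Sum.elim_inl] at this
      rwa [← mul_assoc] at this
  · intro j hj
    rw [hgval]
    by_cases hgj : g j = 0
    · rw [hgj, mul_zero, add_zero]; exact hrow j hj
    · have := htle (Sum.inr j) (by rw [hF, inr_mem_disjSum, mem_filter]; exact ⟨hj, hgj⟩)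
      simp only [hα, hb, hM, Sum.elim_inr] at this
      rwa [← mul_assoc] at this
  · rcases k0 with i | j
    · left
      rw [hF, inl_mem_disjSum, mem_filter] at hk0
      refine ⟨i, hk0.1, ?_⟩
      simp only [hα, hb, hM, Sum.elim_inl] at hk0eq
      simp only
      rwa [← mul_assoc] at hk0eq
    · right
      rw [hF, inr_mem_disjSum, mem_filter] at hk0
      refine ⟨j, hk0.1, ?_, ?_⟩
      · rw [hgval]
        simp only [hα, hb, hM, Sum.elim_inr] at hk0eq
        rwa [← mul_assoc] at hk0eq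
      · by_contra hcon
        push Not at hcon
        apply hk0.2
        rw [hg]
        apply sum_eq_zero
        intro i _
        by_cases hi : i ∈ L
        · rw [hcon i hi, zero_mul]
        · rw [huL i hi, mul_zero]
  · have : ∑ k ∈ Θ, pot V x0 (θ k) (fun i => x i + (t * σ) * u i) L p
        = ∑ k ∈ Θ, pot V x0 (θ k) x L p + t * (σ * ∑ k ∈ Θ, B k) := by
      rw [mul_sum, mul_sum, ← sum_add_distrib]
      apply sum_congr rfl
      intro k _
      rw [hB k (t * σ)]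
      ring
    rw [this]
    have := mul_nonpos_of_nonneg_of_nonpos ht.le hσB
    linarith

/-- The walk. Every coordinate of `U` is rounded unless it belongs to a row that has reached the
threshold. -/
theorem walk_aux {κ τ : Type*} (V : ι → E) (hV : ∀ i, ‖V i‖ ≤ 1) (a : κ → ι → ℝ)
    (T : Finset κ) (Λ : ℝ) (Θ : Finset τ) (θ : τ → E) (x0 : ι → ℝ) (U : Finset ι) :
    ∀ (m : ℕ) (x : ι → ℝ) (L : Finset ι) (p : ι), L.card = m → p ∈ L → L ⊆ U →
      (∀ i, |x i| ≤ 1) → (∀ i ∈ L, |x i| < 1) → (∀ i, i ∉ U → x i = x0 i) →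
      (∀ j ∈ T, |∑ i, a j i * (x i - x0 i)| ≤ Λ) →
      (∀ j ∈ T, |∑ i, a j i * (x i - x0 i)| = Λ → ∀ i ∈ L, a j i = 0) →
      (∀ i ∈ U, i ∉ L → |x i| = 1 ∨ ∃ j ∈ T, a j i ≠ 0 ∧ |∑ i', a j i' * (x i' - x0 i')| = Λ) →
      ∃ y : ι → ℝ, (∀ i, |y i| ≤ 1) ∧ (∀ i, i ∉ U → y i = x0 i) ∧
        (∀ j ∈ T, |∑ i, a j i * (y i - x0 i)| ≤ Λ) ∧
        (∀ i ∈ U, |y i| = 1 ∨ ∃ j ∈ T, a j i ≠ 0 ∧ |∑ i', a j i' * (y i' - x0 i')| = Λ) ∧
        ∑ k ∈ Θ, Real.exp ⟪θ k, disp V x0 y⟫_ℝ ≤ ∑ k ∈ Θ, pot V x0 (θ k) x L p := by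
  classical
  intro m
  induction m using Nat.strong_induction_on with
  | _ m ih =>
    intro x L p hcard hp hLU hx1 hxL hxU hrow hrow2 hcov
    obtain ⟨x', hx'out, hx'in, hrow', hhit, hpot⟩ :=
      walk_step V a T Λ Θ θ x0 x L p hp hxL hrow hrow2
    have hx'1 : ∀ i, |x' i| ≤ 1 := by
      intro i
      by_cases hi : i ∈ L
      · exact hx'in i hi
      · rw [hx'out i hi]; exact hx1 i
    have hx'U : ∀ i, i ∉ U → x' i = x0 i := by
      intro i hi
      have hiL : i ∉ L := fun h => hi (hLU h)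
      rw [hx'out i hiL]; exact hxU i hi
    -- rows that do not meet L do not move
    have hstay : ∀ j, (∀ i ∈ L, a j i = 0) →
        ∑ i, a j i * (x' i - x0 i) = ∑ i, a j i * (x i - x0 i) := by
      intro j hj
      apply sum_congr rfl
      intro i _
      by_cases hi : i ∈ L
      · rw [hj i hi, zero_mul, zero_mul]
      · rw [hx'out i hi]
    set L' : Finset ι := L.filter (fun i => |x' i| < 1 ∧
      ∀ j ∈ T, |∑ i', a j i' * (x' i' - x0 i')| = Λ → a j i = 0) with hL'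
    have hL'L : L' ⊆ L := filter_subset _ _
    have hlt : L'.card < m := by
      rw [← hcard]
      apply card_lt_card
      rw [ssubset_iff_of_subset hL'L]
      rcases hhit with ⟨i, hi, h1⟩ | ⟨j, hj, h1, i, hi, h2⟩
      · refine ⟨i, hi, ?_⟩
        intro hcon
        have := (mem_filter.1 hcon).2.1
        linarith
      · refine ⟨i, hi, ?_⟩
        intro hcon
        exact h2 ((mem_filter.1 hcon).2.2 j hj h1)
    have hcov' : ∀ i ∈ U, i ∉ L' →
        |x' i| = 1 ∨ ∃ j ∈ T, a j i ≠ 0 ∧ |∑ i', a j i' * (x' i' - x0 i')| = Λ := by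
      intro i hiU hiL'
      by_cases hiL : i ∈ L
      · by_cases h1 : |x' i| < 1
        · right
          by_contra hcon
          push Not at hcon
          apply hiL'
          rw [hL', mem_filter]
          refine ⟨hiL, h1, ?_⟩
          intro j hj hj2
          by_contra h3
          exact hcon j hj h3 hj2
        · left
          exact le_antisymm (hx'1 i) (not_lt.1 h1)
      · rcases hcov i hiU hiL with h | ⟨j, hj, h1, h2⟩
        · left; rw [hx'out i hiL]; exact h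
        · right
          refine ⟨j, hj, h1, ?_⟩
          rw [hstay j (hrow2 j hj h2)]; exact h2
    by_cases hne : L' = ∅
    · refine ⟨x', hx'1, hx'U, hrow', ?_, ?_⟩
      · intro i hi
        exact hcov' i hi (by rw [hne]; simp)
      · refine le_trans ?_ hpot
        apply sum_le_sum
        intro k _
        refine le_trans ?_ (exp_le_pot V x0 (θ k) x' (hV p) (hx'1 p) hp)
        have h1 : (0 : ℝ) < Real.exp ⟪θ k, disp V x0 x'⟫_ℝ := Real.exp_pos _
        have h2 : 1 ≤ Real.exp (2 * nsq (sp V (L.erase p)) (θ k)) := by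
          rw [Real.one_le_exp_iff]
          have := nsq_nonneg (sp V (L.erase p)) (θ k)
          linarith
        nlinarith
    · have hxL' : ∀ i ∈ L', |x' i| < 1 := fun i hi => (mem_filter.1 hi).2.1
      have hrow2' : ∀ j ∈ T, |∑ i, a j i * (x' i - x0 i)| = Λ → ∀ i ∈ L', a j i = 0 :=
        fun j hj h i hi => (mem_filter.1 hi).2.2 j hj h
      by_cases hpL' : p ∈ L'
      · obtain ⟨y, h1, h2, h3, h4, h5⟩ := ih _ hlt x' L' p rfl hpL' (hL'L.trans hLU) hx'1 hxL'
          hx'U hrow' hrow2' hcov'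
        refine ⟨y, h1, h2, h3, h4, h5.trans (le_trans ?_ hpot)⟩
        apply sum_le_sum
        intro k _
        exact pot_keep V x0 (θ k) x' (hV p) (hx'1 p) hL'L hpL'
      · obtain ⟨p', hp'⟩ := nonempty_iff_ne_empty.2 hne
        obtain ⟨y, h1, h2, h3, h4, h5⟩ := ih _ hlt x' L' p' rfl hp' (hL'L.trans hLU) hx'1 hxL'
          hx'U hrow' hrow2' hcov'
        refine ⟨y, h1, h2, h3, h4, h5.trans (le_trans ?_ hpot)⟩
        apply sum_le_sum
        intro k _
        apply pot_new V x0 (θ k) x' (hV p) (hx'1 p) (hx'1 p') hp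
        intro i hi
        rw [mem_erase]
        refine ⟨?_, hL'L hi⟩
        rintro rfl
        exact hpL' hi

/-- The walk theorem. -/
theorem walk {κ τ : Type*} (V : ι → E) (hV : ∀ i, ‖V i‖ ≤ 1) (a : κ → ι → ℝ)
    (T : Finset κ) (Λ : ℝ) (hΛ : 0 < Λ) (Θ : Finset τ) (θ : τ → E) (x0 : ι → ℝ)
    (hx0 : ∀ i, |x0 i| ≤ 1) (U : Finset ι) :
    ∃ y : ι → ℝ, (∀ i, |y i| ≤ 1) ∧ (∀ i, i ∉ U → y i = x0 i) ∧
      (∀ j ∈ T, |∑ i, a j i * (y i - x0 i)| ≤ Λ) ∧
      (∀ i ∈ U, |y i| = 1 ∨ ∃ j ∈ T, a j i ≠ 0 ∧ |∑ i', a j i' * (y i' - x0 i')| = Λ) ∧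
      ∑ k ∈ Θ, Real.exp ⟪θ k, disp V x0 y⟫_ℝ ≤ ∑ k ∈ Θ, Real.exp (2 * ‖θ k‖ ^ 2) := by
  classical
  have hsum0 : ∀ j, ∑ i, a j i * (x0 i - x0 i) = 0 := by
    intro j; simp
  have hdisp0 : disp V x0 x0 = 0 := by simp [disp]
  set L : Finset ι := U.filter (fun i => |x0 i| < 1) with hL
  have hcov : ∀ i ∈ U, i ∉ L →
      |x0 i| = 1 ∨ ∃ j ∈ T, a j i ≠ 0 ∧ |∑ i', a j i' * (x0 i' - x0 i')| = Λ := by
    intro i hi hiL
    left
    apply le_antisymm (hx0 i)
    by_contra hcon
    exact hiL (mem_filter.2 ⟨hi, not_le.1 hcon⟩)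
  have hrow : ∀ j ∈ T, |∑ i, a j i * (x0 i - x0 i)| ≤ Λ := by
    intro j _
    rw [hsum0, abs_zero]; exact hΛ.le
  by_cases hne : L = ∅
  · refine ⟨x0, hx0, fun _ _ => rfl, hrow, ?_, ?_⟩
    · intro i hi
      exact hcov i hi (by rw [hne]; simp)
    · apply sum_le_sum
      intro k _
      rw [hdisp0, inner_zero_right]
      apply Real.exp_le_exp.2
      positivity
  · obtain ⟨p, hp⟩ := nonempty_iff_ne_empty.2 hne
    obtain ⟨y, h1, h2, h3, h4, h5⟩ := walk_aux V hV a T Λ Θ θ x0 U _ x0 L p rfl hp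
      (filter_subset _ _) hx0 (fun i hi => (mem_filter.1 hi).2) (fun _ _ => rfl) hrow
      (by
        intro j _ h
        rw [hsum0, abs_zero] at h
        exact absurd h hΛ.ne) hcov
    refine ⟨y, h1, h2, h3, h4, h5.trans ?_⟩
    apply sum_le_sum
    intro k _
    refine (pot_le V x0 (θ k) x0 (hx0 p)).trans ?_
    rw [hdisp0, inner_zero_right, Real.exp_zero, one_mul]
    apply Real.exp_le_exp.2
    have := nsq_le (sp V L) (θ k)
    linarith

end Pool.Agent.LibKomlos64
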