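import Mathlib
import Pool.Agent.LibKomlos64.Walk

/-!
Shattering: the rows that reach the threshold form small clusters.
-/

set_option autoImplicit false
set_option linter.unusedSectionVars false

open Finset InnerProductSpace

namespace Pool.Agent.LibKomlos64

section Lists

variable {κ : Type*} [DecidableEq κ]

/-- lists of length `m + 1` that start at `j` and follow `nb` -/
def chn (nb : κ → Finset κ) : ℕ → κ → Finset (List κ)
  | 0, j => {[j]}
  | (m + 1), j => (nb j).biUnion (fun j' => (chn nb m j').image (fun l => j :: l))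

theorem card_chn (nb : κ → Finset κ) (Δ : ℕ) (hnb : ∀ j, (nb j).card ≤ Δ) (m : ℕ) (j : κ) :
    (chn nb m j).card ≤ Δ ^ m := by
  induction m generalizing j with
  | zero => simp [chn]
  | succ m ih =>
    rw [chn]
    calc _ ≤ ∑ j' ∈ nb j, ((chn nb m j').image (fun l => j :: l)).card := card_biUnion_le
      _ ≤ ∑ j' ∈ nb j, Δ ^ m := sum_le_sum (fun j' _ => card_image_le.trans (ih j'))
      _ = (nb j).card * Δ ^ m := by simp
      _ ≤ Δ * Δ ^ m := Nat.mul_le_mul_right _ (hnb j)
      _ = Δ ^ (m + 1) := by ring

theorem mem_chn (nb : κ → Finset κ) (m : ℕ) (j : κ) (l : List κ)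
    (hl : (j :: l).IsChain (fun a b => b ∈ nb a)) (hlen : l.length = m) :
    (j :: l) ∈ chn nb m j := by
  induction m generalizing j l with
  | zero =>
    rw [List.length_eq_zero_iff] at hlen
    subst hlen
    simp [chn]
  | succ m ih =>
    cases l with
    | nil => simp at hlen
    | cons j' l =>
      rw [List.isChain_cons_cons] at hl
      rw [chn, mem_biUnion]
      refine ⟨j', hl.1, ?_⟩
      rw [mem_image]
      exact ⟨j' :: l, ih j' l hl.2 (by simpa using hlen), rfl⟩

/-- a connected family with at least `s` labels contains a closed list of length `2 s - 1` with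
exactly `s` labels -/
theorem exists_list {ι : Type*} (Q : Finset ι) (dr : ι → κ) (H : κ → κ → Prop)
    (hH : ∀ a b, H a b → H b a) (R : ι → ι → Prop)
    (hR : ∀ a b, R a b → a ∈ Q ∧ b ∈ Q ∧ H (dr a) (dr b))
    (i0 : ι) (hi0 : i0 ∈ Q) (hconn : ∀ i ∈ Q, Relation.ReflTransGen R i0 i) :
    ∀ m : ℕ, m + 1 ≤ (Q.image dr).card →
      ∃ l : List κ, l.IsChain H ∧ l.length = 2 * m + 1 ∧ l.toFinset.card = m + 1 ∧
        l.toFinset ⊆ Q.image dr ∧ dr i0 ∈ l := by
  intro m
  induction m with
  | zero =>
    intro _
    refine ⟨[dr i0], List.isChain_singleton _, rfl, by simp, ?_, by simp⟩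
    intro j hj
    simp only [List.toFinset_cons, List.toFinset_nil, insert_empty_eq, mem_singleton] at hj
    rw [hj]
    exact mem_image_of_mem dr hi0
  | succ m ih =>
    intro hcard
    obtain ⟨l, hchain, hlen, hlcard, hlsub, hl0⟩ := ih (by omega)
    -- a target outside
    have hex : ∃ i ∈ Q, dr i ∉ l.toFinset := by
      by_contra hcon
      push Not at hcon
      have : Q.image dr ⊆ l.toFinset := by
        intro j hj
        obtain ⟨i, hi, rfl⟩ := mem_image.1 hj
        exact hcon i hi
      have := card_le_card this
      omega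
    obtain ⟨it, hit, hitn⟩ := hex
    -- a crossing edge
    have hcross : ∃ a b, R a b ∧ dr a ∈ l.toFinset ∧ dr b ∉ l.toFinset := by
      by_contra hcon
      push Not at hcon
      have hall : ∀ i, Relation.ReflTransGen R i0 i → dr i ∈ l.toFinset := by
        intro i hi
        induction hi with
        | refl => exact List.mem_toFinset.2 hl0
        | tail _ hbc ih2 => exact hcon _ _ hbc ih2
      exact hitn (hall it (hconn it hit))
    obtain ⟨a, b, hab, ha, hb⟩ := hcross
    obtain ⟨haQ, hbQ, hHab⟩ := hR a b hab
    obtain ⟨l1, l2, hl12⟩ := List.append_of_mem (List.mem_toFinset.1 ha)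
    subst hl12
    refine ⟨l1 ++ dr a :: dr b :: dr a :: l2, ?_, ?_, ?_, ?_, ?_⟩
    · rw [List.isChain_split] at hchain ⊢
      refine ⟨hchain.1, ?_⟩
      rw [List.isChain_cons_cons, List.isChain_cons_cons]
      exact ⟨hHab, hH _ _ hHab, hchain.2⟩
    · simp only [List.length_append, List.length_cons] at hlen ⊢
      omega
    · have : (l1 ++ dr a :: dr b :: dr a :: l2).toFinset
          = insert (dr b) (l1 ++ dr a :: l2).toFinset := by
        ext j
        simp only [List.mem_toFinset, List.mem_append, List.mem_cons, mem_insert]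
        tauto
      rw [this, card_insert_of_notMem hb, hlcard]
    · intro j hj
      simp only [List.mem_toFinset, List.mem_append, List.mem_cons] at hj
      have hj' : j = dr b ∨ j ∈ (l1 ++ dr a :: l2).toFinset := by
        simp only [List.mem_toFinset, List.mem_append, List.mem_cons]
        tauto
      rcases hj' with h | h
      · rw [h]; exact mem_image_of_mem dr hbQ
      · exact hlsub h
    · simp only [List.mem_append, List.mem_cons] at hl0 ⊢
      tauto

end Lists

end Pool.Agent.LibKomlos64
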