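import Mathlib
import Pool.Agent.LibKomlos64.Cluster

/-!
Vectors with few nonzero entries in every row and every column: one shattering step and the union
bound.
-/

set_option autoImplicit false
set_option linter.unusedSectionVars false

open Finset InnerProductSpace

namespace Pool.Agent.LibKomlos64

variable {ι κ : Type*} [Fintype ι] [Fintype κ] [DecidableEq ι] [DecidableEq κ]

/-- the vectors as elements of Euclidean space -/
noncomputable def vec (v : ι → κ → ℝ) (i : ι) : EuclideanSpace ℝ κ := WithLp.toLp 2 (v i)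

theorem norm_vec_le (v : ι → κ → ℝ) (hv : ∀ i, ∑ j, (v i j) ^ 2 ≤ 1) (i : ι) :
    ‖vec v i‖ ≤ 1 := by
  rw [vec, EuclideanSpace.norm_eq, Real.sqrt_le_one]
  refine le_trans (le_of_eq ?_) (hv i)
  apply sum_congr rfl
  intro j _
  simp

/-- the displacement of row `j` -/
noncomputable def rw' (v : ι → κ → ℝ) (x0 x : ι → ℝ) (j : κ) : ℝ :=
  ∑ i, v i j * (x i - x0 i)

theorem inner_disp (v : ι → κ → ℝ) (x0 x : ι → ℝ) (g : κ → ℝ) :
    ⟪(WithLp.toLp 2 g : EuclideanSpace ℝ κ), disp (vec v) x0 x⟫_ℝ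
      = ∑ j, g j * rw' v x0 x j := by
  have h : disp (vec v) x0 x
      = (WithLp.toLp 2 (fun j => rw' v x0 x j) : EuclideanSpace ℝ κ) := by
    ext j
    simp only [disp, vec, rw', WithLp.ofLp_sum, WithLp.ofLp_smul, Finset.sum_apply,
      Pi.smul_apply, smul_eq_mul]
    apply sum_congr rfl
    intro i _
    ring
  rw [h, PiLp.inner_apply]
  apply sum_congr rfl
  intro j _
  simp [mul_comm]

theorem norm_toLp_sq (g : κ → ℝ) :
    ‖(WithLp.toLp 2 g : EuclideanSpace ℝ κ)‖ ^ 2 = ∑ j, (g j) ^ 2 := by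
  rw [EuclideanSpace.norm_sq_eq]
  simp

/-- rows that meet `U` -/
noncomputable def rowsOf (v : ι → κ → ℝ) (U : Finset ι) : Finset κ :=
  univ.filter (fun j => ∃ i ∈ U, v i j ≠ 0)

theorem mem_rowsOf (v : ι → κ → ℝ) (U : Finset ι) (j : κ) :
    j ∈ rowsOf v U ↔ ∃ i ∈ U, v i j ≠ 0 := by
  simp [rowsOf]

theorem rw'_eq_zero (v : ι → κ → ℝ) (U : Finset ι) (x0 x : ι → ℝ) (hx : ∀ i, i ∉ U → x i = x0 i)
    (j : κ) (hj : j ∉ rowsOf v U) : rw' v x0 x j = 0 := by
  apply sum_eq_zero
  intro i _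
  by_cases hi : i ∈ U
  · have : v i j = 0 := by
      by_contra h
      exact hj (mem_filter.2 ⟨mem_univ j, i, hi, h⟩)
    rw [this, zero_mul]
  · rw [hx i hi, sub_self, mul_zero]

/-- every fractional point can be rounded on any set of columns that meets at most `N` rows, with
change at most `B` in every row -/
def PB (v : ι → κ → ℝ) (B : ℝ) (N : ℕ) : Prop :=
  ∀ U : Finset ι, (rowsOf v U).card ≤ N → ∀ x0 : ι → ℝ, (∀ i, |x0 i| ≤ 1) →
    ∃ x : ι → ℝ, (∀ i, |x i| ≤ 1) ∧ (∀ i ∈ U, |x i| = 1) ∧ (∀ i, i ∉ U → x i = x0 i) ∧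
      ∀ j, |rw' v x0 x j| ≤ B

/-- signed test vector of one row -/
noncomputable def tst (c : ℝ) (q : κ × Bool) : EuclideanSpace ℝ κ :=
  WithLp.toLp 2 (Pi.single q.1 (if q.2 then c else -c))

theorem inner_tst (v : ι → κ → ℝ) (x0 x : ι → ℝ) (c : ℝ) (q : κ × Bool) :
    ⟪tst c q, disp (vec v) x0 x⟫_ℝ = (if q.2 then c else -c) * rw' v x0 x q.1 := by
  rw [tst, inner_disp, sum_eq_single q.1]
  · rw [Pi.single_eq_same]
  · intro b _ hb
    rw [Pi.single_eq_of_ne hb, zero_mul]
  · intro h; exact absurd (mem_univ _) h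

theorem norm_tst_sq (c : ℝ) (q : κ × Bool) : ‖tst c q‖ ^ 2 = c ^ 2 := by
  rw [tst, norm_toLp_sq, sum_eq_single q.1]
  · rw [Pi.single_eq_same]
    split_ifs <;> ring
  · intro b _ hb
    rw [Pi.single_eq_of_ne hb]; ring
  · intro h; exact absurd (mem_univ _) h

/-- the union bound -/
theorem PB_base (v : ι → κ → ℝ) (hv : ∀ i, ∑ j, (v i j) ^ 2 ≤ 1) (B : ℝ) (hB : 0 < B) (N : ℕ)
    (hN : 2 * (N : ℝ) ≤ Real.exp (B ^ 2 / 8)) : PB v B N := by
  intro U hU x0 hx0
  obtain ⟨y, h1, h2, -, h4, h5⟩ := walk (vec v) (norm_vec_le v hv) (fun (_ : κ) (_ : ι) => (0 : ℝ))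
    ∅ 1 one_pos ((rowsOf v U) ×ˢ (univ : Finset Bool)) (tst (B / 4)) x0 hx0 U
  refine ⟨y, h1, ?_, h2, ?_⟩
  · intro i hi
    rcases h4 i hi with h | ⟨j, hj, -⟩
    · exact h
    · simp at hj
  · intro j
    by_cases hj : j ∈ rowsOf v U
    · by_contra hcon
      push Not at hcon
      -- upper bound of the potential
      have hup : ∑ k ∈ (rowsOf v U) ×ˢ (univ : Finset Bool), Real.exp (2 * ‖tst (B / 4) k‖ ^ 2)
          ≤ 2 * N * Real.exp (B ^ 2 / 8) := by
        have e : ∀ k ∈ (rowsOf v U) ×ˢ (univ : Finset Bool),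
            Real.exp (2 * ‖tst (B / 4) k‖ ^ 2) = Real.exp (B ^ 2 / 8) := by
          intro k _
          rw [norm_tst_sq]
          congr 1
          ring
        rw [sum_congr rfl e, sum_const, card_product]
        simp only [card_univ, Fintype.card_bool, nsmul_eq_mul]
        apply mul_le_mul_of_nonneg_right _ (Real.exp_pos _).le
        push_cast
        have : ((rowsOf v U).card : ℝ) ≤ N := by exact_mod_cast hU
        linarith
      -- lower bound
      have hmem : ∀ b : Bool, Real.exp ((if b then B / 4 else -(B / 4)) * rw' v x0 y j) ≤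
          ∑ k ∈ (rowsOf v U) ×ˢ (univ : Finset Bool),
            Real.exp ⟪tst (B / 4) k, disp (vec v) x0 y⟫_ℝ := by
        intro b
        have h := single_le_sum (s := (rowsOf v U) ×ˢ (univ : Finset Bool))
            (f := fun k : κ × Bool => Real.exp ⟪tst (B / 4) k, disp (vec v) x0 y⟫_ℝ)
            (fun _ _ => (Real.exp_pos _).le) (a := (j, b))
            (mem_product.2 ⟨hj, mem_univ _⟩)
        refine le_trans (le_of_eq ?_) h
        rw [inner_tst]
      have hlow : Real.exp (B / 4 * |rw' v x0 y j|) ≤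
          ∑ k ∈ (rowsOf v U) ×ˢ (univ : Finset Bool),
            Real.exp ⟪tst (B / 4) k, disp (vec v) x0 y⟫_ℝ := by
        rcases le_total 0 (rw' v x0 y j) with h0 | h0
        · have := hmem true
          rw [if_pos rfl] at this
          rwa [abs_of_nonneg h0]
        · have := hmem false
          rw [if_neg (by simp)] at this
          rw [abs_of_nonpos h0]
          rwa [mul_neg, ← neg_mul]
      have hlt : Real.exp (B / 4 * B) < Real.exp (B / 4 * |rw' v x0 y j|) := by
        apply Real.exp_lt_exp.2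
        apply mul_lt_mul_of_pos_left hcon (by positivity)
      have hfin : Real.exp (B / 4 * B) < 2 * N * Real.exp (B ^ 2 / 8) :=
        (hlt.trans_le hlow).trans_le (h5.trans hup)
      have hsplit : Real.exp (B / 4 * B) = Real.exp (B ^ 2 / 8) * Real.exp (B ^ 2 / 8) := by
        rw [← Real.exp_add]; congr 1; ring
      rw [hsplit] at hfin
      have hpos := Real.exp_pos (B ^ 2 / 8)
      have := lt_of_mul_lt_mul_right hfin hpos.le
      linarith
    · rw [rw'_eq_zero v U x0 y h2 j hj, abs_zero]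
      exact hB.le

/-- two rows are near if they are joined by a path with at most two further edges -/
def Near (v : ι → κ → ℝ) (j j' : κ) : Prop :=
  ∃ (i i' : ι) (m : κ), v i j ≠ 0 ∧ v i m ≠ 0 ∧ v i' m ≠ 0 ∧ v i' j' ≠ 0

theorem Near.symm {v : ι → κ → ℝ} {j j' : κ} (h : Near v j j') : Near v j' j := by
  obtain ⟨i, i', m, h1, h2, h3, h4⟩ := h
  exact ⟨i', i, m, h4, h3, h2, h1⟩

open Classical in
/-- near rows -/
noncomputable def nbr (v : ι → κ → ℝ) (j : κ) : Finset κ := univ.filter (fun j' => Near v j j')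

theorem card_nbr (v : ι → κ → ℝ) (k c : ℕ)
    (hk : ∀ j, (univ.filter (fun i => v i j ≠ 0)).card ≤ k)
    (hc : ∀ i, (univ.filter (fun j => v i j ≠ 0)).card ≤ c) (j : κ) :
    (nbr v j).card ≤ (k * c) ^ 2 := by
  classical
  have hsub : nbr v j ⊆ (univ.filter (fun i => v i j ≠ 0)).biUnion (fun i =>
      (univ.filter (fun m => v i m ≠ 0)).biUnion (fun m =>
        (univ.filter (fun i' => v i' m ≠ 0)).biUnion (fun i' =>
          univ.filter (fun j' => v i' j' ≠ 0)))) := by
    intro j' hj'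
    obtain ⟨i, i', m, h1, h2, h3, h4⟩ := (mem_filter.1 hj').2
    simp only [mem_biUnion, mem_filter, mem_univ, true_and]
    exact ⟨i, h1, m, h2, i', h3, h4⟩
  refine (card_le_card hsub).trans ?_
  calc _ ≤ ∑ i ∈ univ.filter (fun i => v i j ≠ 0), c * (k * c) := by
        refine card_biUnion_le.trans (sum_le_sum fun i _ => ?_)
        calc _ ≤ ∑ m ∈ univ.filter (fun m => v i m ≠ 0), k * c := by
              refine card_biUnion_le.trans (sum_le_sum fun m _ => ?_)
              calc _ ≤ ∑ i' ∈ univ.filter (fun i' => v i' m ≠ 0), c :=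
                    card_biUnion_le.trans (sum_le_sum fun i' _ => hc i')
                _ = (univ.filter (fun i' => v i' m ≠ 0)).card * c := by simp
                _ ≤ k * c := Nat.mul_le_mul_right _ (hk m)
          _ = (univ.filter (fun m => v i m ≠ 0)).card * (k * c) := by simp
          _ ≤ c * (k * c) := Nat.mul_le_mul_right _ (hc i)
    _ = (univ.filter (fun i => v i j ≠ 0)).card * (c * (k * c)) := by simp
    _ ≤ k * (c * (k * c)) := Nat.mul_le_mul_right _ (hk j)
    _ = (k * c) ^ 2 := by ring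

/-- signed test vector of a set of rows -/
noncomputable def tst2 (c : ℝ) (q : List κ × Finset κ) : EuclideanSpace ℝ κ :=
  WithLp.toLp 2 (fun j => if j ∈ q.1.toFinset then (if j ∈ q.2 then c else -c) else 0)

theorem norm_tst2_sq (c : ℝ) (q : List κ × Finset κ) :
    ‖tst2 c q‖ ^ 2 = c ^ 2 * q.1.toFinset.card := by
  rw [tst2, norm_toLp_sq]
  have : ∀ j, (if j ∈ q.1.toFinset then (if j ∈ q.2 then c else -c) else 0) ^ 2
      = if j ∈ q.1.toFinset then c ^ 2 else 0 := by
    intro j
    split_ifs <;> ring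
  simp_rw [this]
  rw [sum_ite_mem, univ_inter, sum_const, nsmul_eq_mul, mul_comm]

theorem inner_tst2 (v : ι → κ → ℝ) (x0 x : ι → ℝ) (c : ℝ) (q : List κ × Finset κ) :
    ⟪tst2 c q, disp (vec v) x0 x⟫_ℝ
      = ∑ j ∈ q.1.toFinset, (if j ∈ q.2 then c else -c) * rw' v x0 x j := by
  rw [tst2, inner_disp]
  have : ∀ j, (if j ∈ q.1.toFinset then (if j ∈ q.2 then c else -c) else 0) * rw' v x0 x j
      = if j ∈ q.1.toFinset then (if j ∈ q.2 then c else -c) * rw' v x0 x j else 0 := by
    intro j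
    split_ifs <;> ring
  simp_rw [this]
  rw [sum_ite_mem, univ_inter]

end Pool.Agent.LibKomlos64
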