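import Mathlib
import Pool.Agent.LibKomlos64.Sparse

/-!
The shattering step.
-/

set_option autoImplicit false
set_option linter.unusedSectionVars false

open Finset InnerProductSpace

namespace Pool.Agent.LibKomlos64

variable {ι κ : Type*} [Fintype ι] [Fintype κ] [DecidableEq ι] [DecidableEq κ]

/-- lists of near rows with `s` labels, with a sign pattern -/
noncomputable def fam (v : ι → κ → ℝ) (R : Finset κ) (s : ℕ) : Finset (List κ × Finset κ) :=
  ((R.biUnion (chn (nbr v) (2 * (s - 1)))).filter (fun l => l.toFinset.card = s)).biUnion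
    (fun l => l.toFinset.powerset.image (fun P => (l, P)))

theorem card_fam (v : ι → κ → ℝ) (R : Finset κ) (s D : ℕ) (hD : ∀ j, (nbr v j).card ≤ D) :
    (fam v R s).card ≤ R.card * D ^ (2 * (s - 1)) * 2 ^ s := by
  rw [fam]
  refine card_biUnion_le.trans ?_
  calc _ ≤ ∑ l ∈ (R.biUnion (chn (nbr v) (2 * (s - 1)))).filter
          (fun l => l.toFinset.card = s), 2 ^ s := by
        apply sum_le_sum
        intro l hl
        refine card_image_le.trans ?_
        rw [card_powerset, (mem_filter.1 hl).2]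
    _ = ((R.biUnion (chn (nbr v) (2 * (s - 1)))).filter
          (fun l => l.toFinset.card = s)).card * 2 ^ s := by simp
    _ ≤ (R.card * D ^ (2 * (s - 1))) * 2 ^ s := by
        apply Nat.mul_le_mul_right
        refine (card_filter_le _ _).trans ?_
        refine card_biUnion_le.trans ?_
        calc _ ≤ ∑ j ∈ R, D ^ (2 * (s - 1)) :=
              sum_le_sum (fun j _ => card_chn (nbr v) D hD _ j)
          _ = _ := by simp

/-- no list of near rows with `s` labels consists of rows at the threshold -/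
theorem no_list (v : ι → κ → ℝ) (k c : ℕ)
    (hk : ∀ j, (univ.filter (fun i => v i j ≠ 0)).card ≤ k)
    (hc : ∀ i, (univ.filter (fun j => v i j ≠ 0)).card ≤ c)
    (Λ : ℝ) (hΛ : 0 < Λ) (s N : ℕ) (hN : (N : ℝ) < Real.exp s)
    (hΛ2 : 2 * (((k * c) ^ 2 : ℕ) : ℝ) ^ 2 * Real.exp 1 ≤ Real.exp (Λ ^ 2 / 8))
    (hD1 : 1 ≤ (k * c) ^ 2)
    (U : Finset ι) (hU : (rowsOf v U).card ≤ N) (x0 y : ι → ℝ)
    (hyU : ∀ i, i ∉ U → y i = x0 i)
    (h5 : ∑ q ∈ fam v (rowsOf v U) s, Real.exp ⟪tst2 (Λ / 4) q, disp (vec v) x0 y⟫_ℝ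
      ≤ ∑ q ∈ fam v (rowsOf v U) s, Real.exp (2 * ‖tst2 (Λ / 4) q‖ ^ 2))
    (l : List κ) (hchain : l.IsChain (Near v)) (hlen : l.length = 2 * (s - 1) + 1)
    (hcard : l.toFinset.card = s) (hdan : ∀ j ∈ l, |rw' v x0 y j| = Λ) : False := by
  set D : ℕ := (k * c) ^ 2 with hD
  set P : Finset κ := l.toFinset.filter (fun j => rw' v x0 y j = Λ) with hP
  have hmem : (l, P) ∈ fam v (rowsOf v U) s := by
    rw [fam, mem_biUnion]
    refine ⟨l, ?_, ?_⟩
    · rw [mem_filter]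
      refine ⟨?_, hcard⟩
      rw [mem_biUnion]
      cases l with
      | nil => simp at hlen
      | cons j l =>
        refine ⟨j, ?_, ?_⟩
        · by_contra hj
          have h1 := rw'_eq_zero v U x0 y hyU j hj
          have h2 := hdan j (by simp)
          rw [h1, abs_zero] at h2
          exact hΛ.ne h2
        · apply mem_chn
          · refine hchain.imp ?_
            intro a b hab
            simp only [nbr, mem_filter, mem_univ, true_and]
            exact hab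
          · simpa using hlen
    · rw [mem_image]
      exact ⟨P, mem_powerset.2 (filter_subset _ _), rfl⟩
  have hlow : Real.exp (Λ / 4 * Λ * s) ≤
      ∑ q ∈ fam v (rowsOf v U) s, Real.exp ⟪tst2 (Λ / 4) q, disp (vec v) x0 y⟫_ℝ := by
    have h := single_le_sum (s := fam v (rowsOf v U) s)
      (f := fun q => Real.exp ⟪tst2 (Λ / 4) q, disp (vec v) x0 y⟫_ℝ)
      (fun _ _ => (Real.exp_pos _).le) hmem
    refine le_trans (le_of_eq ?_) h
    rw [inner_tst2]
    congr 1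
    have e : ∀ j ∈ l.toFinset, (if j ∈ P then Λ / 4 else -(Λ / 4)) * rw' v x0 y j
        = Λ / 4 * Λ := by
      intro j hj
      have h1 := hdan j (List.mem_toFinset.1 hj)
      by_cases hjP : j ∈ P
      · rw [if_pos hjP, (mem_filter.1 hjP).2]
      · rw [if_neg hjP]
        have h2 : rw' v x0 y j ≠ Λ := fun h => hjP (mem_filter.2 ⟨hj, h⟩)
        rcases eq_or_eq_neg_of_abs_eq h1 with h3 | h3
        · exact absurd h3 h2
        · rw [h3]; ring
    rw [sum_congr rfl e, sum_const, hcard, nsmul_eq_mul]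
    ring
  have hup : ∑ q ∈ fam v (rowsOf v U) s, Real.exp (2 * ‖tst2 (Λ / 4) q‖ ^ 2)
      ≤ (N * (D : ℝ) ^ (2 * s) * 2 ^ s) * Real.exp (Λ ^ 2 / 8 * s) := by
    have e : ∀ q ∈ fam v (rowsOf v U) s, Real.exp (2 * ‖tst2 (Λ / 4) q‖ ^ 2)
        = Real.exp (Λ ^ 2 / 8 * s) := by
      intro q hq
      rw [fam, mem_biUnion] at hq
      obtain ⟨l', hl', hq⟩ := hq
      obtain ⟨P', -, rfl⟩ := mem_image.1 hq
      rw [norm_tst2_sq]
      simp only
      rw [(mem_filter.1 hl').2]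
      congr 1
      ring
    rw [sum_congr rfl e, sum_const, nsmul_eq_mul]
    apply mul_le_mul_of_nonneg_right _ (Real.exp_pos _).le
    have h1 := card_fam v (rowsOf v U) s D (card_nbr v k c hk hc)
    have h2 : (fam v (rowsOf v U) s).card ≤ N * D ^ (2 * s) * 2 ^ s := by
      refine h1.trans ?_
      apply Nat.mul_le_mul_right
      apply Nat.mul_le_mul hU
      exact Nat.pow_le_pow_right hD1 (by omega)
    exact_mod_cast h2
  have hmain : Real.exp (Λ / 4 * Λ * s) ≤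
      (N * (D : ℝ) ^ (2 * s) * 2 ^ s) * Real.exp (Λ ^ 2 / 8 * s) := hlow.trans (h5.trans hup)
  have hsplit : Real.exp (Λ / 4 * Λ * s)
      = Real.exp (Λ ^ 2 / 8 * s) * Real.exp (Λ ^ 2 / 8 * s) := by
    rw [← Real.exp_add]; congr 1; ring
  rw [hsplit] at hmain
  have hpos := Real.exp_pos (Λ ^ 2 / 8 * s)
  have h6 : Real.exp (Λ ^ 2 / 8 * s) ≤ N * (D : ℝ) ^ (2 * s) * 2 ^ s :=
    le_of_mul_le_mul_right hmain hpos
  have h7 : (2 * (D : ℝ) ^ 2 * Real.exp 1) ^ s ≤ Real.exp (Λ ^ 2 / 8 * s) := by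
    rw [mul_comm (Λ ^ 2 / 8), Real.exp_nat_mul]
    apply pow_le_pow_left₀ (by positivity) hΛ2
  have h8 : (2 * (D : ℝ) ^ 2 * Real.exp 1) ^ s = (D : ℝ) ^ (2 * s) * 2 ^ s * Real.exp s := by
    rw [mul_pow, mul_pow, ← pow_mul, ← Real.exp_nat_mul, mul_one]
    ring
  rw [h8] at h7
  have hDpos : (0 : ℝ) < (D : ℝ) ^ (2 * s) * 2 ^ s := by
    have : (0 : ℝ) < D := by exact_mod_cast (lt_of_lt_of_le one_pos hD1)
    positivity
  have h9 : (D : ℝ) ^ (2 * s) * 2 ^ s * N < (D : ℝ) ^ (2 * s) * 2 ^ s * Real.exp s :=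
    mul_lt_mul_of_pos_left hN hDpos
  nlinarith

/-- rounding cluster by cluster -/
theorem round_clusters (v : ι → κ → ℝ) (B : ℝ) (hB0 : 0 ≤ B) (N' : ℕ) (hB : PB v B N')
    (y : ι → ℝ) (hy : ∀ i, |y i| ≤ 1) (U1 : Finset ι)
    (hQ : ∀ i ∈ U1, ∃ Q ⊆ U1, i ∈ Q ∧ (rowsOf v Q).card ≤ N' ∧
      ∀ a ∈ Q, ∀ b ∈ U1, (∃ j, v a j ≠ 0 ∧ v b j ≠ 0) → b ∈ Q) :
    ∀ (m : ℕ) (W : Finset ι), W.card = m → W ⊆ U1 →
      (∀ a ∈ W, ∀ b ∈ U1, (∃ j, v a j ≠ 0 ∧ v b j ≠ 0) → b ∈ W) →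
      ∃ x : ι → ℝ, (∀ i, |x i| ≤ 1) ∧ (∀ i ∈ W, |x i| = 1) ∧ (∀ i, i ∉ W → x i = y i) ∧
        ∀ j, |rw' v y x j| ≤ B := by
  intro m
  induction m using Nat.strong_induction_on with
  | _ m ih =>
    intro W hWm hWU hWc
    by_cases hWe : W = ∅
    · refine ⟨y, hy, by rw [hWe]; simp, fun _ _ => rfl, ?_⟩
      intro j
      simp only [rw', sub_self, mul_zero, sum_const_zero, abs_zero]
      exact hB0
    · obtain ⟨i, hi⟩ := nonempty_iff_ne_empty.2 hWe
      obtain ⟨Q0, hQ0U, hiQ0, hQ0card, hQ0c⟩ := hQ i (hWU hi)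
      -- intersect with W
      set Q : Finset ι := Q0 ∩ W with hQdef
      have hQW : Q ⊆ W := inter_subset_right
      have hQc : ∀ a ∈ Q, ∀ b ∈ U1, (∃ j, v a j ≠ 0 ∧ v b j ≠ 0) → b ∈ Q := by
        intro a ha b hb hab
        exact mem_inter.2 ⟨hQ0c a (mem_inter.1 ha).1 b hb hab, hWc a (mem_inter.1 ha).2 b hb hab⟩
      have hQcard : (rowsOf v Q).card ≤ N' := by
        refine le_trans (card_le_card ?_) hQ0card
        intro j hj
        obtain ⟨a, ha, haj⟩ := (mem_filter.1 hj).2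
        exact mem_filter.2 ⟨mem_univ _, a, (mem_inter.1 ha).1, haj⟩
      have hlt : (W \ Q).card < m := by
        rw [← hWm]
        apply card_lt_card
        rw [ssubset_iff_of_subset sdiff_subset]
        exact ⟨i, hi, fun h => (mem_sdiff.1 h).2 (mem_inter.2 ⟨hiQ0, hi⟩)⟩
      obtain ⟨x1, h1, h2, h3, h4⟩ := ih _ hlt (W \ Q) rfl (sdiff_subset.trans hWU) (by
        intro a ha b hb hab
        rw [mem_sdiff] at ha ⊢
        refine ⟨hWc a ha.1 b hb hab, ?_⟩
        intro hbQ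
        apply ha.2
        obtain ⟨j, hj1, hj2⟩ := hab
        exact hQc b hbQ a (hWU ha.1) ⟨j, hj2, hj1⟩)
      obtain ⟨x2, g1, g2, g3, g4⟩ := hB Q hQcard x1 h1
      refine ⟨x2, g1, ?_, ?_, ?_⟩
      · intro a ha
        by_cases haQ : a ∈ Q
        · exact g2 a haQ
        · rw [g3 a haQ]
          exact h2 a (mem_sdiff.2 ⟨ha, haQ⟩)
      · intro a ha
        have haQ : a ∉ Q := fun h => ha (hQW h)
        rw [g3 a haQ]
        exact h3 a (fun h => ha (mem_sdiff.1 h).1)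
      · intro j
        have hadd : rw' v y x2 j = rw' v y x1 j + rw' v x1 x2 j := by
          rw [rw', rw', rw', ← sum_add_distrib]
          apply sum_congr rfl
          intro a _
          ring
        by_cases hj : j ∈ rowsOf v Q
        · obtain ⟨a, haQ, haj⟩ := (mem_filter.1 hj).2
          have h0 : rw' v y x1 j = 0 := by
            apply rw'_eq_zero v (W \ Q) y x1 h3
            intro hj2
            obtain ⟨b, hb, hbj⟩ := (mem_filter.1 hj2).2
            rw [mem_sdiff] at hb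
            exact hb.2 (hQc a haQ b (hWU hb.1) ⟨j, haj, hbj⟩)
          rw [hadd, h0, zero_add]
          exact g4 j
        · have h0 : rw' v x1 x2 j = 0 := rw'_eq_zero v Q x1 x2 g3 j hj
          rw [hadd, h0, add_zero]
          exact h4 j

/-- the shattering step -/
theorem PB_step (v : ι → κ → ℝ) (hv : ∀ i, ∑ j, (v i j) ^ 2 ≤ 1) (k c : ℕ)
    (hk : ∀ j, (univ.filter (fun i => v i j ≠ 0)).card ≤ k)
    (hc : ∀ i, (univ.filter (fun j => v i j ≠ 0)).card ≤ c)
    (Λ : ℝ) (hΛ : 0 < Λ) (s N N' : ℕ) (hs : 1 ≤ s) (hN : (N : ℝ) < Real.exp s)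
    (hΛ2 : 2 * (((k * c) ^ 2 : ℕ) : ℝ) ^ 2 * Real.exp 1 ≤ Real.exp (Λ ^ 2 / 8))
    (hD1 : 1 ≤ (k * c) ^ 2) (hN' : c * (k * s) ≤ N') (B : ℝ) (hB0 : 0 ≤ B) (hB : PB v B N') :
    PB v (Λ + B) N := by
  classical
  intro U hU x0 hx0
  obtain ⟨y, h1, h2, h3, h4, h5⟩ := walk (vec v) (norm_vec_le v hv) (fun j i => v i j)
    (univ : Finset κ) Λ hΛ (fam v (rowsOf v U) s) (tst2 (Λ / 4)) x0 hx0 U
  have h3' : ∀ j, |rw' v x0 y j| ≤ Λ := fun j => h3 j (mem_univ j)
  set U1 : Finset ι := U.filter (fun i => |y i| ≠ 1) with hU1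
  have hdan : ∀ i ∈ U1, ∃ j, v i j ≠ 0 ∧ |rw' v x0 y j| = Λ := by
    intro i hi
    rw [hU1, mem_filter] at hi
    rcases h4 i hi.1 with h | ⟨j, -, hj1, hj2⟩
    · exact absurd h hi.2
    · exact ⟨j, hj1, hj2⟩
  have hQ : ∀ i ∈ U1, ∃ Q ⊆ U1, i ∈ Q ∧ (rowsOf v Q).card ≤ N' ∧
      ∀ a ∈ Q, ∀ b ∈ U1, (∃ j, v a j ≠ 0 ∧ v b j ≠ 0) → b ∈ Q := by
    intro i0 hi0
    obtain ⟨j0, -, -⟩ := hdan i0 hi0
    have hch : ∀ i, ∃ j, i ∈ U1 → v i j ≠ 0 ∧ |rw' v x0 y j| = Λ := by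
      intro i
      by_cases hi : i ∈ U1
      · obtain ⟨j, hj⟩ := hdan i hi
        exact ⟨j, fun _ => hj⟩
      · exact ⟨j0, fun h => absurd h hi⟩
    choose dr hdr using hch
    set R : ι → ι → Prop := fun a b => a ∈ U1 ∧ b ∈ U1 ∧ ∃ j, v a j ≠ 0 ∧ v b j ≠ 0 with hR
    set Q : Finset ι := U1.filter (fun i => Relation.ReflTransGen R i0 i) with hQ
    have hQU : Q ⊆ U1 := filter_subset _ _
    have hi0Q : i0 ∈ Q := mem_filter.2 ⟨hi0, Relation.ReflTransGen.refl⟩
    have hQc : ∀ a ∈ Q, ∀ b ∈ U1, (∃ j, v a j ≠ 0 ∧ v b j ≠ 0) → b ∈ Q := by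
      intro a ha b hb hab
      rw [hQ, mem_filter] at ha ⊢
      exact ⟨hb, ha.2.tail ⟨ha.1, hb, hab⟩⟩
    refine ⟨Q, hQU, hi0Q, ?_, hQc⟩
    -- the number of threshold rows in the cluster
    have hcardD : (Q.image dr).card < s := by
      by_contra hcon
      push Not at hcon
      obtain ⟨l, hl1, hl2, hl3, hl4, -⟩ := exists_list Q dr (Near v) (fun _ _ h => h.symm)
        (fun a b => a ∈ Q ∧ b ∈ Q ∧ ∃ j, v a j ≠ 0 ∧ v b j ≠ 0)
        (by
          rintro a b ⟨ha, hb, j, hj1, hj2⟩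
          exact ⟨ha, hb, a, b, j, (hdr a (hQU ha)).1, hj1, hj2, (hdr b (hQU hb)).1⟩)
        i0 hi0Q
        (by
          intro i hi
          have hi2 := (mem_filter.1 hi).2
          clear hi
          induction hi2 with
          | refl => exact Relation.ReflTransGen.refl
          | @tail a b hab hbc ih2 =>
            refine ih2.tail ⟨?_, ?_, hbc.2.2⟩
            · exact mem_filter.2 ⟨hbc.1, hab⟩
            · exact mem_filter.2 ⟨hbc.2.1, hab.tail hbc⟩)
        (s - 1) (by omega)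
      apply no_list v k c hk hc Λ hΛ s N hN hΛ2 hD1 U hU x0 y h2 h5 l hl1 hl2 (by omega)
      intro j hj
      obtain ⟨i, hi, rfl⟩ := mem_image.1 (hl4 (List.mem_toFinset.2 hj))
      exact (hdr i (hQU hi)).2
    have hcardQ : Q.card ≤ k * s := by
      have hsub : Q ⊆ (Q.image dr).biUnion (fun j => univ.filter (fun i => v i j ≠ 0)) := by
        intro i hi
        rw [mem_biUnion]
        exact ⟨dr i, mem_image_of_mem dr hi, mem_filter.2 ⟨mem_univ _, (hdr i (hQU hi)).1⟩⟩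
      calc Q.card ≤ _ := card_le_card hsub
        _ ≤ ∑ j ∈ Q.image dr, k := card_biUnion_le.trans (sum_le_sum fun j _ => hk j)
        _ = (Q.image dr).card * k := by simp
        _ ≤ s * k := Nat.mul_le_mul_right _ hcardD.le
        _ = k * s := by ring
    have hsub : rowsOf v Q ⊆ Q.biUnion (fun i => univ.filter (fun j => v i j ≠ 0)) := by
      intro j hj
      obtain ⟨i, hi, hij⟩ := (mem_filter.1 hj).2
      rw [mem_biUnion]
      exact ⟨i, hi, mem_filter.2 ⟨mem_univ _, hij⟩⟩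
    calc (rowsOf v Q).card ≤ _ := card_le_card hsub
      _ ≤ ∑ i ∈ Q, c := card_biUnion_le.trans (sum_le_sum fun i _ => hc i)
      _ = Q.card * c := by simp
      _ ≤ (k * s) * c := Nat.mul_le_mul_right _ hcardQ
      _ = c * (k * s) := by ring
      _ ≤ N' := hN'
  obtain ⟨x, g1, g2, g3, g4⟩ := round_clusters v B hB0 N' hB y h1 U1 hQ _ U1 rfl subset_rfl
    (fun _ _ b hb _ => hb)
  refine ⟨x, g1, ?_, ?_, ?_⟩
  · intro i hi
    by_cases hi1 : i ∈ U1
    · exact g2 i hi1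
    · rw [g3 i hi1]
      by_contra hcon
      exact hi1 (mem_filter.2 ⟨hi, hcon⟩)
  · intro i hi
    have hi1 : i ∉ U1 := fun h => hi (mem_filter.1 h).1
    rw [g3 i hi1, h2 i hi]
  · intro j
    have hadd : rw' v x0 x j = rw' v x0 y j + rw' v y x j := by
      rw [rw', rw', rw', ← sum_add_distrib]
      apply sum_congr rfl
      intro a _
      ring
    rw [hadd]
    exact (abs_add_le _ _).trans (add_le_add (h3' j) (g4 j))

end Pool.Agent.LibKomlos64
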