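import Mathlib
import Pool.Agent.LibKomlos64.Step

/-!
Iterating the shattering step: vectors with at most `k` nonzero entries in every row.
-/

set_option autoImplicit false
set_option linter.unusedSectionVars false

open Finset

namespace Pool.Agent.LibKomlos64

section

variable {ι κ : Type*} [Fintype ι] [Fintype κ] [DecidableEq ι] [DecidableEq κ]

theorem log_bound (k : ℕ) (hk : 2 ≤ k) (M N : ℕ) (hN : N ≤ k ^ 7 * (M + 1)) :
    k ^ 2 * (k * (Nat.log 2 N + 1)) ≤ k ^ 7 * (Nat.log 2 M + 1) := by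
  have h1 : N < 2 ^ (7 * (Nat.log 2 k + 1) + (Nat.log 2 M + 1)) := by
    have hk2 : k < 2 ^ (Nat.log 2 k + 1) := Nat.lt_pow_succ_log_self (by norm_num) k
    have hM2 : M + 1 ≤ 2 ^ (Nat.log 2 M + 1) := Nat.lt_pow_succ_log_self (by norm_num) M
    calc N ≤ k ^ 7 * (M + 1) := hN
      _ < (2 ^ (Nat.log 2 k + 1)) ^ 7 * 2 ^ (Nat.log 2 M + 1) := by
          apply Nat.mul_lt_mul_of_lt_of_le
          · exact Nat.pow_lt_pow_left hk2 (by norm_num)
          · exact hM2
          · positivity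
      _ = 2 ^ (7 * (Nat.log 2 k + 1) + (Nat.log 2 M + 1)) := by
          rw [← pow_mul, ← pow_add]; ring_nf
  have h2 : Nat.log 2 N < 7 * (Nat.log 2 k + 1) + (Nat.log 2 M + 1) :=
    Nat.log_lt_of_lt_pow' (by omega) h1
  have h3 : Nat.log 2 k + 1 ≤ k := Nat.log_lt_self 2 (by omega)
  set a := Nat.log 2 N
  set b := Nat.log 2 M
  set l := Nat.log 2 k
  have h4 : a + 1 ≤ 7 * k + 1 + b := by omega
  have h5 : 7 * k + 1 ≤ k ^ 4 := by
    have : 8 ≤ k ^ 3 := by
      calc 8 = 2 ^ 3 := by norm_num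
        _ ≤ k ^ 3 := Nat.pow_le_pow_left hk 3
    calc 7 * k + 1 ≤ 8 * k := by omega
      _ ≤ k ^ 3 * k := Nat.mul_le_mul_right _ this
      _ = k ^ 4 := by ring
  have h6 : a + 1 ≤ k ^ 4 * (b + 1) := by
    have h7 : 1 ≤ k ^ 4 := Nat.one_le_pow _ _ (by omega)
    calc a + 1 ≤ k ^ 4 + b := by omega
      _ ≤ k ^ 4 + k ^ 4 * b := by
          apply Nat.add_le_add_left
          calc b = 1 * b := by ring
            _ ≤ k ^ 4 * b := Nat.mul_le_mul_right _ h7
      _ = k ^ 4 * (b + 1) := by ring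
  calc k ^ 2 * (k * (a + 1)) = k ^ 3 * (a + 1) := by ring
    _ ≤ k ^ 3 * (k ^ 4 * (b + 1)) := Nat.mul_le_mul_left _ h6
    _ = k ^ 7 * (b + 1) := by ring

/-- the final union bound -/
noncomputable def bnd (k m : ℕ) : ℝ := √(8 * Real.log (2 * (k : ℝ) ^ 7 * (m + 1)))

theorem bnd_pos (k : ℕ) (hk : 2 ≤ k) (m : ℕ) : 0 < bnd k m := by
  apply Real.sqrt_pos.2
  have h1 : (1 : ℝ) < 2 * (k : ℝ) ^ 7 * (m + 1) := by
    have hk' : (2 : ℝ) ≤ k := by exact_mod_cast hk
    have h2 : (1 : ℝ) ≤ (k : ℝ) ^ 7 := one_le_pow₀ (by linarith)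
    have h3 : (0 : ℝ) ≤ m := Nat.cast_nonneg m
    nlinarith
  have := Real.log_pos h1
  linarith

theorem PB_iter (v : ι → κ → ℝ) (hv : ∀ i, ∑ j, (v i j) ^ 2 ≤ 1) (k : ℕ) (hk2 : 2 ≤ k)
    (hk : ∀ j, (univ.filter (fun i => v i j ≠ 0)).card ≤ k)
    (hc : ∀ i, (univ.filter (fun j => v i j ≠ 0)).card ≤ k ^ 2) (i : ℕ) :
    ∀ (M N : ℕ), N ≤ k ^ 7 * (M + 1) →
      PB v (i * (11 * √(Real.log k)) + bnd k ((Nat.log 2)^[i] M)) N := by
  have hkr : (2 : ℝ) ≤ k := by exact_mod_cast hk2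
  have hlogk : 0 < Real.log k := Real.log_pos (by linarith)
  induction i with
  | zero =>
    intro M N hN
    simp only [Nat.cast_zero, zero_mul, zero_add, Function.iterate_zero, id]
    apply PB_base v hv _ (bnd_pos k hk2 M)
    rw [bnd, Real.sq_sqrt]
    · have e : 8 * Real.log (2 * (k : ℝ) ^ 7 * (M + 1)) / 8
          = Real.log (2 * (k : ℝ) ^ 7 * (M + 1)) := by ring
      rw [e, Real.exp_log (by positivity)]
      have : (N : ℝ) ≤ (k : ℝ) ^ 7 * (M + 1) := by exact_mod_cast hN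
      linarith
    · have := bnd_pos k hk2 M
      rw [bnd] at this
      exact (Real.sqrt_pos.1 this).le
  | succ i ih =>
    intro M N hN
    have h1 := log_bound k hk2 M N hN
    have h2 := ih (Nat.log 2 M) (k ^ 2 * (k * (Nat.log 2 N + 1))) h1
    have h3 := PB_step v hv k (k ^ 2) hk hc (11 * √(Real.log k))
      (by positivity) (Nat.log 2 N + 1) N (k ^ 2 * (k * (Nat.log 2 N + 1))) (by omega) ?_ ?_ ?_
      le_rfl (i * (11 * √(Real.log k)) + bnd k ((Nat.log 2)^[i] (Nat.log 2 M))) ?_ h2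
    · have e : ((i + 1 : ℕ) : ℝ) * (11 * √(Real.log k)) + bnd k ((Nat.log 2)^[i + 1] M)
          = 11 * √(Real.log k) + (i * (11 * √(Real.log k))
            + bnd k ((Nat.log 2)^[i] (Nat.log 2 M))) := by
        rw [Function.iterate_succ_apply]
        push_cast
        ring
      rw [e]
      exact h3
    · have h4 : N < 2 ^ (Nat.log 2 N + 1) := Nat.lt_pow_succ_log_self (by norm_num) N
      have h5 : (N : ℝ) < 2 ^ (Nat.log 2 N + 1) := by exact_mod_cast h4
      refine h5.trans_le ?_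
      have h6 : Real.exp ((Nat.log 2 N + 1 : ℕ) : ℝ) = Real.exp 1 ^ (Nat.log 2 N + 1) := by
        rw [← Real.exp_nat_mul, mul_one]
      rw [h6]
      apply pow_le_pow_left₀ (by norm_num)
      have := Real.exp_one_gt_d9
      linarith
    · have h4 : (11 * √(Real.log k)) ^ 2 / 8 = 121 / 8 * Real.log k := by
        rw [mul_pow, Real.sq_sqrt hlogk.le]; ring
      rw [h4]
      have h5 : Real.exp (15 * Real.log k) ≤ Real.exp (121 / 8 * Real.log k) := by
        apply Real.exp_le_exp.2; nlinarith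
      refine le_trans ?_ h5
      have h6 : Real.exp (15 * Real.log k) = (k : ℝ) ^ 15 := by
        have : (15 : ℝ) * Real.log k = ((15 : ℕ) : ℝ) * Real.log k := by norm_num
        rw [this, Real.exp_nat_mul, Real.exp_log (by linarith)]
      rw [h6]
      push_cast
      have h7 : (k : ℝ) ^ 15 = ((k * (k : ℝ) ^ 2) ^ 2) ^ 2 * (k : ℝ) ^ 3 := by ring
      rw [h7]
      have h8 : (8 : ℝ) ≤ (k : ℝ) ^ 3 := by
        calc (8 : ℝ) = 2 ^ 3 := by norm_num
          _ ≤ (k : ℝ) ^ 3 := pow_le_pow_left₀ (by norm_num) hkr 3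
      have h9 := Real.exp_one_lt_d9
      have h10 : (0 : ℝ) ≤ ((k * (k : ℝ) ^ 2) ^ 2) ^ 2 := by positivity
      nlinarith
    · have : 1 ≤ k * k ^ 2 := Nat.mul_pos (by omega) (by positivity)
      exact Nat.one_le_pow _ _ this
    · have := bnd_pos k hk2 ((Nat.log 2)^[i] (Nat.log 2 M))
      positivity

end

end Pool.Agent.LibKomlos64
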