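import Mathlib

set_option autoImplicit false

namespace Pool.Agent.LibKomlos64.RowsFour

open Finset

theorem mass_aux (k m t : ℕ) (hk : k ≤ 4) (hmk : m ≤ k) (htm : t ≤ m) (r θ R S : ℝ) (hr : 0 ≤ r)
    (hrk : r ^ 2 = k) (hθ : 0 < θ) (hR : R = r + 2 * θ) (hRm : R ≤ m)
    (hS1 : S ≤ t) (hS2 : R - (m - t) * θ ≤ S) (hS3 : t < m → R - (m - t) * θ < S) :
    (k : ℝ) < 2 * r * S - t := by
  have hk4 : (k : ℝ) ≤ 4 := by exact_mod_cast hk
  have hmk' : (m : ℝ) ≤ k := by exact_mod_cast hmk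
  have htm' : (t : ℝ) ≤ m := by exact_mod_cast htm
  have hr2 : r ≤ 2 := by nlinarith
  have hk0 : 0 < k := by
    rcases Nat.eq_zero_or_pos k with h | h
    · subst h
      have : m = 0 := by omega
      subst this
      have h0 : r = 0 := by
        have : r ^ 2 = 0 := by rw [hrk]; norm_num
        exact pow_eq_zero_iff (two_ne_zero) |>.1 this
      rw [h0] at hR
      norm_num at hRm
      linarith
    · exact h
  have hk1 : (1 : ℝ) ≤ k := by exact_mod_cast hk0
  have hr0 : 0 < r := by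
    rcases lt_or_eq_of_le hr with h | h
    · exact h
    · rw [← h] at hrk
      norm_num at hrk
      linarith
  by_cases h3 : m ≤ t + 2
  · have h3' : (m : ℝ) ≤ t + 2 := by exact_mod_cast h3
    rcases lt_or_eq_of_le htm with h4 | h4
    · have h5 := hS3 h4
      have h6 : (t : ℝ) < k := by
        have : t < k := by omega
        exact_mod_cast this
      nlinarith [mul_nonneg (sub_nonneg.2 h3') hθ.le]
    · have h5 : R ≤ S := by
        have : (m : ℝ) - t = 0 := by rw [h4]; ring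
        rw [this] at hS2
        linarith
      nlinarith
  · exfalso
    have h4 : t < m := by omega
    have h5 := hS3 h4
    have hm4 : m ≤ 4 := by omega
    have h6 : R < t + (m - t) * θ := by linarith
    have hcase : (m = 3 ∧ t = 0) ∨ (m = 4 ∧ t = 0) ∨ (m = 4 ∧ t = 1) := by omega
    rcases hcase with ⟨rfl, rfl⟩ | ⟨rfl, rfl⟩ | ⟨rfl, rfl⟩
    · push_cast at h6 hRm hmk'
      have h7 : (1 : ℝ) < r := by nlinarith
      nlinarith
    · push_cast at h6 hRm hmk'
      have h7 : r = 2 := by nlinarith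
      nlinarith
    · push_cast at h6 hRm hmk'
      have h7 : r = 2 := by nlinarith
      nlinarith

variable {n d : ℕ} (v : Fin n → Fin d → ℝ) (r : ℝ)

/-- the size of a row -/
noncomputable def R (j : Fin d) : ℝ := ∑ i, |v i j|

noncomputable def θ (j : Fin d) : ℝ := (R v j - r) / 2

noncomputable def T (j : Fin d) : Finset (Fin n) := univ.filter (fun i => θ v r j ≤ |v i j|)

theorem mass (k : ℕ) (hk : k ≤ 4) (hv : ∀ i, ∑ j, v i j ^ 2 ≤ 1)
    (hrow : ∀ j, #{i | v i j ≠ 0} ≤ k) (hr : r = √k) (j : Fin d) (hb : r < R v j) :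
    1 < ∑ i ∈ T v r j, v i j ^ 2 := by
  have hr0 : 0 ≤ r := by rw [hr]; exact Real.sqrt_nonneg _
  have hrk : r ^ 2 = k := by rw [hr]; exact Real.sq_sqrt (Nat.cast_nonneg k)
  have hθ : 0 < θ v r j := by unfold θ; linarith
  have hle1 : ∀ i, |v i j| ≤ 1 := by
    intro i
    have h1 : v i j ^ 2 ≤ 1 := (single_le_sum (fun j _ => sq_nonneg (v i j)) (mem_univ j)).trans
      (hv i)
    exact abs_le_one_iff_mul_self_le_one.2 (by nlinarith)
  set N : Finset (Fin n) := {i | v i j ≠ 0} with hN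
  have hTN : T v r j ⊆ N := by
    intro i hi
    have h1 := (mem_filter.1 hi).2
    simp only [hN, mem_filter, mem_univ, true_and]
    intro h
    rw [h, abs_zero] at h1
    linarith
  have hRN : R v j = ∑ i ∈ N, |v i j| := by
    unfold R
    symm
    refine sum_subset (subset_univ _) (fun i _ hi => ?_)
    simp only [hN, mem_filter, mem_univ, true_and, not_not] at hi
    rw [hi, abs_zero]
  set S : ℝ := ∑ i ∈ T v r j, |v i j| with hS
  have hsplit : R v j = S + ∑ i ∈ N \ T v r j, |v i j| := by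
    rw [hRN, hS, add_comm, sum_sdiff hTN]
  have hcard : #(N \ T v r j) = #N - #(T v r j) := card_sdiff_of_subset hTN
  have htm : #(T v r j) ≤ #N := card_le_card hTN
  have hcast : ((#(N \ T v r j) : ℕ) : ℝ) = (#N : ℝ) - #(T v r j) := by
    rw [hcard, Nat.cast_sub htm]
  have hrest : ∀ i ∈ N \ T v r j, |v i j| < θ v r j := by
    intro i hi
    rw [mem_sdiff] at hi
    by_contra h
    exact hi.2 (mem_filter.2 ⟨mem_univ _, not_lt.1 h⟩)
  have hS2 : R v j - ((#N : ℝ) - #(T v r j)) * θ v r j ≤ S := by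
    have h1 : ∑ i ∈ N \ T v r j, |v i j| ≤ ∑ i ∈ N \ T v r j, θ v r j :=
      sum_le_sum (fun i hi => (hrest i hi).le)
    rw [sum_const, nsmul_eq_mul, hcast] at h1
    linarith
  have hS3 : #(T v r j) < #N → R v j - ((#N : ℝ) - #(T v r j)) * θ v r j < S := by
    intro hlt
    have hne : (N \ T v r j).Nonempty := by
      rw [← card_pos, hcard]; omega
    have h1 : ∑ i ∈ N \ T v r j, |v i j| < ∑ i ∈ N \ T v r j, θ v r j :=
      sum_lt_sum_of_nonempty hne hrest
    rw [sum_const, nsmul_eq_mul, hcast] at h1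
    linarith
  have hS1 : S ≤ #(T v r j) := by
    have h1 : S ≤ ∑ i ∈ T v r j, (1 : ℝ) := sum_le_sum (fun i _ => hle1 i)
    simpa using h1
  have hRm : R v j ≤ #N := by
    rw [hRN]
    have h1 : ∑ i ∈ N, |v i j| ≤ ∑ i ∈ N, (1 : ℝ) := sum_le_sum (fun i _ => hle1 i)
    simpa using h1
  have haux := mass_aux k (#N) (#(T v r j)) hk (hrow j) htm r (θ v r j) (R v j) S hr0 hrk hθ
    (by unfold θ; ring) hRm hS1 hS2 hS3
  have hk0 : 0 < (k : ℝ) := by
    rcases Nat.eq_zero_or_pos k with h | h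
    · exfalso
      have h2 : #N ≤ k := hrow j
      have h1 : #N = 0 := by omega
      rw [h1, Nat.cast_zero] at hRm
      linarith
    · exact_mod_cast h
  have hsum : 2 * r * S - #(T v r j) ≤ k * ∑ i ∈ T v r j, v i j ^ 2 := by
    have h1 : ∑ i ∈ T v r j, (2 * r * |v i j| - 1) ≤ ∑ i ∈ T v r j, (k * v i j ^ 2) := by
      refine sum_le_sum (fun i _ => ?_)
      have h2 : v i j ^ 2 = |v i j| ^ 2 := (sq_abs _).symm
      rw [h2, ← hrk]
      nlinarith [sq_nonneg (r * |v i j| - 1)]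
    rw [sum_sub_distrib, ← mul_sum, ← mul_sum, sum_const, nsmul_eq_mul, mul_one] at h1
    exact h1
  have h3 : (k : ℝ) * 1 < k * ∑ i ∈ T v r j, v i j ^ 2 := by linarith
  exact lt_of_mul_lt_mul_left h3 hk0.le

/-- signs for which no big part of a bad row is monochromatic -/
theorem combin (hv : ∀ i, ∑ j, v i j ^ 2 ≤ 1)
    (hmass : ∀ j, r < R v j → 1 < ∑ i ∈ T v r j, v i j ^ 2) (B : Finset (Fin d))
    (hB : ∀ j ∈ B, r < R v j) :
    ∃ ε : Fin n → ℝ, (∀ i, ε i = 1 ∨ ε i = -1) ∧ ∀ j ∈ B,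
      (∃ i ∈ T v r j, 0 < ε i * v i j) ∧ (∃ i ∈ T v r j, ε i * v i j < 0) := by
  classical
  induction B using Finset.strongInduction with
  | H B ih =>
    rcases B.eq_empty_or_nonempty with rfl | hne
    · exact ⟨fun _ => 1, fun _ => Or.inl rfl, fun j hj => absurd hj (notMem_empty j)⟩
    set S : Finset (Fin n) := B.biUnion (T v r) with hS
    have hcard : #B < #S := by
      have h1 : (#B : ℝ) < ∑ j ∈ B, ∑ i ∈ T v r j, v i j ^ 2 := by
        have : ∑ j ∈ B, (1 : ℝ) < ∑ j ∈ B, ∑ i ∈ T v r j, v i j ^ 2 :=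
          sum_lt_sum_of_nonempty hne (fun j hj => hmass j (hB j hj))
        simpa using this
      have h2 : ∑ j ∈ B, ∑ i ∈ T v r j, v i j ^ 2 ≤ ∑ j ∈ B, ∑ i ∈ S, v i j ^ 2 := by
        refine sum_le_sum (fun j hj => sum_le_sum_of_subset_of_nonneg ?_ ?_)
        · exact subset_biUnion_of_mem (T v r) hj
        · intro i _ _; exact sq_nonneg _
      have h3 : ∑ j ∈ B, ∑ i ∈ S, v i j ^ 2 ≤ #S := by
        rw [sum_comm]
        have : ∑ i ∈ S, ∑ j ∈ B, v i j ^ 2 ≤ ∑ i ∈ S, (1 : ℝ) := by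
          refine sum_le_sum (fun i _ => le_trans ?_ (hv i))
          exact sum_le_sum_of_subset_of_nonneg (subset_univ _) (fun j _ _ => sq_nonneg _)
        simpa using this
      have h4 : (#B : ℝ) < #S := by linarith
      exact_mod_cast h4
    -- a kernel vector
    let L : (S → ℝ) →ₗ[ℝ] (B → ℝ) :=
      { toFun := fun x j => ∑ i : S, (if (i : Fin n) ∈ T v r j then v i j else 0) * x i
        map_add' := by
          intro x y; funext j
          simp only [Pi.add_apply, mul_add, sum_add_distrib]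
        map_smul' := by
          intro c x; funext j
          simp only [Pi.smul_apply, smul_eq_mul, RingHom.id_apply, mul_sum]
          exact sum_congr rfl (fun i _ => by ring) }
    have hker : LinearMap.ker L ≠ ⊥ := by
      apply LinearMap.ker_ne_bot_of_finrank_lt
      rw [Module.finrank_fintype_fun_eq_card, Module.finrank_fintype_fun_eq_card,
        Fintype.card_coe, Fintype.card_coe]
      exact hcard
    obtain ⟨x, hx, hx0⟩ := (Submodule.ne_bot_iff _).1 hker
    let y : Fin n → ℝ := fun i => if h : i ∈ S then x ⟨i, h⟩ else 0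
    have hy : ∀ j ∈ B, ∑ i ∈ T v r j, v i j * y i = 0 := by
      intro j hj
      have h1 : L x ⟨j, hj⟩ = 0 := by
        have : L x = 0 := hx
        rw [this]; rfl
      have h2 : L x ⟨j, hj⟩ = ∑ i : S, (if (i : Fin n) ∈ T v r j then v i j else 0) * x i := rfl
      have h3 : ∑ i : S, (if (i : Fin n) ∈ T v r j then v i j else 0) * x i =
          ∑ i ∈ S, (if i ∈ T v r j then v i j * y i else 0) := by
        rw [← sum_coe_sort S]
        refine sum_congr rfl (fun i _ => ?_)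
        have : y i = x i := by
          show (if h : (i : Fin n) ∈ S then x ⟨i, h⟩ else 0) = x i
          rw [dif_pos i.2]
        rw [this]
        split_ifs
        · rfl
        · ring
      rw [← sum_filter] at h3
      have h4 : S.filter (fun i => i ∈ T v r j) = T v r j := by
        ext i
        simp only [mem_filter]
        exact ⟨fun h => h.2, fun h => ⟨subset_biUnion_of_mem (T v r) hj h, h⟩⟩
      rw [h4] at h3
      rw [← h3, ← h2, h1]
    obtain ⟨i0, hi0⟩ : ∃ i0 : S, x i0 ≠ 0 := by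
      by_contra h
      push Not at h
      exact hx0 (funext h)
    let B' : Finset (Fin d) := B.filter (fun j => ∀ i ∈ T v r j, y i = 0)
    have hB' : B' ⊂ B := by
      refine ⟨filter_subset _ _, fun h => ?_⟩
      obtain ⟨j, hj, hij⟩ := mem_biUnion.1 i0.2
      have h1 := (mem_filter.1 (h hj)).2 i0 hij
      have h2 : y i0 = x i0 := by
        show (if h : (i0 : Fin n) ∈ S then x ⟨i0, h⟩ else 0) = x i0
        rw [dif_pos i0.2]
      rw [h2] at h1
      exact hi0 h1
    obtain ⟨ε', hε', hε''⟩ := ih B' hB' (fun j hj => hB j (mem_filter.1 hj).1)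
    obtain ⟨e, he⟩ : ∃ e : Fin n → ℝ, ∀ i,
        e i = if 0 < y i then 1 else if y i < 0 then -1 else ε' i := ⟨_, fun i => rfl⟩
    refine ⟨e, ?_, ?_⟩
    · intro i
      rw [he]
      split_ifs
      · left; rfl
      · right; rfl
      · exact hε' i
    · intro j hj
      by_cases hjB : j ∈ B'
      · have h1 : ∀ i ∈ T v r j, e i = ε' i := by
          intro i hi
          have h2 := (mem_filter.1 hjB).2 i hi
          rw [he, h2, if_neg (lt_irrefl _), if_neg (lt_irrefl _)]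
        obtain ⟨⟨i1, hi1, h1p⟩, ⟨i2, hi2, h2p⟩⟩ := hε'' j hjB
        refine ⟨⟨i1, hi1, ?_⟩, ⟨i2, hi2, ?_⟩⟩
        · rw [h1 i1 hi1]; exact h1p
        · rw [h1 i2 hi2]; exact h2p
      · have h1 : ∃ i1 ∈ T v r j, y i1 ≠ 0 := by
          by_contra h
          push Not at h
          exact hjB (mem_filter.2 ⟨hj, h⟩)
        obtain ⟨i1, hi1, hyi1⟩ := h1
        have hθ : 0 < θ v r j := by have := hB j hj; unfold θ; linarith
        have hvne : v i1 j ≠ 0 := by
          intro h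
          have h2 := (mem_filter.1 hi1).2
          rw [h, abs_zero] at h2
          linarith
        have h3 := hy j hj
        have hne1 : ∃ i ∈ T v r j, v i j * y i ≠ 0 := ⟨i1, hi1, mul_ne_zero hvne hyi1⟩
        have key : ∀ i, e i * |y i| = y i := by
          intro i
          rw [he]
          rcases lt_trichotomy (y i) 0 with h | h | h
          · rw [if_neg (not_lt.2 h.le), if_pos h, abs_of_neg h]; ring
          · rw [h, abs_zero, mul_zero]
          · rw [if_pos h, abs_of_pos h, one_mul]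
        constructor
        · obtain ⟨i, hi, hpos⟩ := exists_pos_of_sum_zero_of_exists_nonzero _ h3 hne1
          refine ⟨i, hi, ?_⟩
          have h4 : y i ≠ 0 := by
            intro h
            rw [h, mul_zero] at hpos
            exact lt_irrefl _ hpos
          have h5 := key i
          have h6 : 0 < |y i| := abs_pos.2 h4
          have h7 : 0 < (e i * v i j) *
              |y i| := by
            calc (0 : ℝ) < v i j * y i := hpos
              _ = v i j * (e i *
                    |y i|) := by rw [h5]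
              _ = _ := by ring
          exact (mul_pos_iff_of_pos_right h6).1 h7
        · have h3' : ∑ i ∈ T v r j, -(v i j * y i) = 0 := by rw [sum_neg_distrib, h3, neg_zero]
          have hne2 : ∃ i ∈ T v r j, -(v i j * y i) ≠ 0 :=
            ⟨i1, hi1, neg_ne_zero.2 (mul_ne_zero hvne hyi1)⟩
          obtain ⟨i, hi, hpos⟩ := exists_pos_of_sum_zero_of_exists_nonzero _ h3' hne2
          refine ⟨i, hi, ?_⟩
          have h4 : y i ≠ 0 := by
            intro h
            rw [h, mul_zero, neg_zero] at hpos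
            exact lt_irrefl _ hpos
          have h5 := key i
          have h6 : 0 < |y i| := abs_pos.2 h4
          have h7 : 0 < (-(e i * v i j)) *
              |y i| := by
            calc (0 : ℝ) < -(v i j * y i) := hpos
              _ = -(v i j * (e i *
                    |y i|)) := by rw [h5]
              _ = _ := by ring
          have h8 := (mul_pos_iff_of_pos_right h6).1 h7
          linarith

theorem upper (n d k : ℕ) (hk : k ≤ 4) (v : Fin n → Fin d → ℝ) (hv : ∀ i, ∑ j, v i j ^ 2 ≤ 1)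
    (hrow : ∀ j, #{i | v i j ≠ 0} ≤ k) :
    ∃ ε : Fin n → ℝ, (∀ i, ε i = 1 ∨ ε i = -1) ∧ ∀ j, |∑ i, ε i * v i j| ≤ √k := by
  classical
  set r : ℝ := √k with hr
  obtain ⟨ε, hε, hB⟩ := combin v r hv (fun j hb => mass v r k hk hv hrow hr j hb)
    (univ.filter (fun j => r < R v j)) (fun j hj => (mem_filter.1 hj).2)
  refine ⟨ε, hε, fun j => ?_⟩
  have habs : ∀ i, |ε i * v i j| = |v i j| := by
    intro i
    rcases hε i with h | h <;> rw [h] <;> simp
  by_cases hb : r < R v j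
  · obtain ⟨⟨i1, hi1, h1⟩, ⟨i2, hi2, h2⟩⟩ := hB j (mem_filter.2 ⟨mem_univ _, hb⟩)
    have hi1' := (mem_filter.1 hi1).2
    have hi2' := (mem_filter.1 hi2).2
    have e1 : ∑ i, (|v i j| - ε i * v i j) = R v j - ∑ i, ε i * v i j := by
      rw [sum_sub_distrib]; rfl
    have e2 : ∑ i, (|v i j| + ε i * v i j) = R v j + ∑ i, ε i * v i j := by
      rw [sum_add_distrib]; rfl
    have g1 : 2 * θ v r j ≤ ∑ i, (|v i j| - ε i * v i j) := by
      have h3 : |v i2 j| - ε i2 * v i2 j ≤ ∑ i, (|v i j| - ε i * v i j) := by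
        refine single_le_sum (f := fun i => |v i j| - ε i * v i j) (fun i _ => ?_) (mem_univ i2)
        have := le_abs_self (ε i * v i j)
        rw [habs] at this
        linarith
      have h4 : |v i2 j| = - (ε i2 * v i2 j) := by rw [← habs, abs_of_neg h2]
      linarith
    have g2 : 2 * θ v r j ≤ ∑ i, (|v i j| + ε i * v i j) := by
      have h3 : |v i1 j| + ε i1 * v i1 j ≤ ∑ i, (|v i j| + ε i * v i j) := by
        refine single_le_sum (f := fun i => |v i j| + ε i * v i j) (fun i _ => ?_) (mem_univ i1)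
        have := neg_abs_le (ε i * v i j)
        rw [habs] at this
        linarith
      have h4 : |v i1 j| = ε i1 * v i1 j := by rw [← habs, abs_of_pos h1]
      linarith
    rw [e1] at g1
    rw [e2] at g2
    unfold θ at g1 g2
    rw [abs_le]
    constructor <;> linarith
  · calc |∑ i, ε i * v i j| ≤ ∑ i, |ε i * v i j| := abs_sum_le_sum_abs _ _
      _ = R v j := sum_congr rfl (fun i _ => habs i)
      _ ≤ r := not_lt.1 hb

theorem fano : ∀ c : Fin 7 → Bool, ∃ j : Fin 7, c j = c (j + 1) ∧ c j = c (j + 3) := by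
  intro c
  have key : ∀ a0 a1 a2 a3 a4 a5 a6 : Bool, (a0 = a1 ∧ a0 = a3) ∨ (a1 = a2 ∧ a1 = a4) ∨
      (a2 = a3 ∧ a2 = a5) ∨ (a3 = a4 ∧ a3 = a6) ∨ (a4 = a5 ∧ a4 = a0) ∨ (a5 = a6 ∧ a5 = a1) ∨
      (a6 = a0 ∧ a6 = a2) := by decide
  rcases key (c 0) (c 1) (c 2) (c 3) (c 4) (c 5) (c 6) with h | h | h | h | h | h | h
  · exact ⟨0, h⟩
  · exact ⟨1, h⟩
  · exact ⟨2, h⟩
  · exact ⟨3, h⟩
  · exact ⟨4, h⟩
  · exact ⟨5, h⟩
  · exact ⟨6, h⟩

/-- the incidence vectors of the Fano plane, scaled -/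
noncomputable def fanoVec (i j : Fin 7) : ℝ := if i = j ∨ i = j + 1 ∨ i = j + 3 then (√3)⁻¹ else 0

theorem lower3 : ∃ (n d : ℕ) (v : Fin n → Fin d → ℝ), (∀ i, ∑ j, v i j ^ 2 ≤ 1) ∧
    (∀ j, #{i | v i j ≠ 0} ≤ 3) ∧
    ∀ ε : Fin n → ℝ, (∀ i, ε i = 1 ∨ ε i = -1) → ∃ j, √3 ≤ |∑ i, ε i * v i j| := by
  have h3 : (√3 : ℝ) ^ 2 = 3 := Real.sq_sqrt (by norm_num)
  have h3' : (0 : ℝ) < √3 := Real.sqrt_pos.2 (by norm_num)
  refine ⟨7, 7, fanoVec, ?_, ?_, ?_⟩
  · intro i
    have h4 : ((√3 : ℝ)⁻¹) ^ 2 = 1 / 3 := by rw [inv_pow, h3]; norm_num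
    have h5 : ∑ j, fanoVec i j ^ 2 = ∑ j : Fin 7, if i = j ∨ i = j + 1 ∨ i = j + 3
        then (1 / 3 : ℝ) else 0 := by
      refine sum_congr rfl (fun j _ => ?_)
      unfold fanoVec
      split_ifs
      · exact h4
      · norm_num
    rw [h5, ← sum_filter, sum_const, nsmul_eq_mul]
    have h6 : ∀ i : Fin 7, #{j : Fin 7 | i = j ∨ i = j + 1 ∨ i = j + 3} = 3 := by decide
    rw [h6 i]
    norm_num
  · intro j
    have h6 : ∀ j : Fin 7, #{i : Fin 7 | i = j ∨ i = j + 1 ∨ i = j + 3} = 3 := by decide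
    rw [← h6 j]
    refine card_le_card (fun i hi => ?_)
    rw [mem_filter] at hi ⊢
    refine ⟨mem_univ _, ?_⟩
    by_contra h
    apply hi.2
    unfold fanoVec
    rw [if_neg h]
  · intro ε hε
    obtain ⟨j, h1, h2⟩ := fano (fun i => decide (ε i = 1))
    simp only [decide_eq_decide] at h1 h2
    have e1 : ε (j + 1) = ε j := by
      rcases hε j with h | h <;> rcases hε (j + 1) with h' | h' <;> rw [h, h'] at h1 ⊢ <;>
        norm_num at h1
    have e2 : ε (j + 3) = ε j := by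
      rcases hε j with h | h <;> rcases hε (j + 3) with h' | h' <;> rw [h, h'] at h2 ⊢ <;>
        norm_num at h2
    refine ⟨j, ?_⟩
    have hs : ∑ i, ε i * fanoVec i j = (ε j + ε (j + 1) + ε (j + 3)) * (√3)⁻¹ := by
      have h7 : ∑ i, ε i * fanoVec i j =
          ∑ i ∈ univ.filter (fun i : Fin 7 => i = j ∨ i = j + 1 ∨ i = j + 3),
            ε i * (√3)⁻¹ := by
        rw [sum_filter]
        refine sum_congr rfl (fun i _ => ?_)
        unfold fanoVec
        split_ifs <;> simp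
      have h8 : ∀ j : Fin 7, univ.filter (fun i : Fin 7 => i = j ∨ i = j + 1 ∨ i = j + 3) =
          {j, j + 1, j + 3} := by decide
      have h9 : ∀ j : Fin 7, j ∉ ({j + 1, j + 3} : Finset (Fin 7)) := by decide
      have h10 : ∀ j : Fin 7, j + 1 ≠ j + 3 := by decide
      rw [h7, h8 j, sum_insert (h9 j), sum_pair (h10 j)]
      ring
    rw [hs, e1, e2]
    have hv : |(ε j + ε j + ε j) * (√3)⁻¹| = √3 := by
      have : |ε j + ε j + ε j| = 3 := by
        rcases hε j with h | h <;> rw [h] <;> norm_num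
      rw [abs_mul, this, abs_of_pos (inv_pos.2 h3')]
      field_simp
      linarith
    rw [hv]

theorem lower2 : ∃ (n d : ℕ) (v : Fin n → Fin d → ℝ), (∀ i, ∑ j, v i j ^ 2 ≤ 1) ∧
    (∀ j, #{i | v i j ≠ 0} ≤ 2) ∧
    ∀ ε : Fin n → ℝ, (∀ i, ε i = 1 ∨ ε i = -1) → ∃ j, √2 ≤ |∑ i, ε i * v i j| := by
  have h3 : (√2 : ℝ) ^ 2 = 2 := Real.sq_sqrt (by norm_num)
  have h3' : (0 : ℝ) < √2 := Real.sqrt_pos.2 (by norm_num)
  have h4 : ((√2 : ℝ)⁻¹) ^ 2 = 1 / 2 := by rw [inv_pow, h3]; norm_num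
  refine ⟨2, 2, fun i j => if i = 1 ∧ j = 1 then - (√2)⁻¹ else (√2)⁻¹, ?_, ?_, ?_⟩
  · intro i
    rw [Fin.sum_univ_two]
    beta_reduce
    split_ifs <;> nlinarith
  · intro j
    exact (card_le_univ _).trans (by simp)
  · intro ε hε
    have h5 : (√2 : ℝ)⁻¹ * 2 = √2 := by field_simp; linarith
    by_cases h : ε 0 = ε 1
    · refine ⟨0, ?_⟩
      rw [Fin.sum_univ_two]
      norm_num
      rcases hε 1 with h1 | h1
      · rw [h, h1]
        rw [abs_of_nonneg] <;> nlinarith
      · rw [h, h1]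
        rw [abs_of_nonpos] <;> nlinarith
    · refine ⟨1, ?_⟩
      rw [Fin.sum_univ_two]
      norm_num
      rcases hε 0 with h0 | h0 <;> rcases hε 1 with h1 | h1
      · exact absurd (h0.trans h1.symm) h
      · rw [h0, h1, abs_of_nonneg] <;> nlinarith
      · rw [h0, h1, abs_of_nonpos] <;> nlinarith
      · exact absurd (h0.trans h1.symm) h

theorem lower1 : ∃ (n d : ℕ) (v : Fin n → Fin d → ℝ), (∀ i, ∑ j, v i j ^ 2 ≤ 1) ∧
    (∀ j, #{i | v i j ≠ 0} ≤ 1) ∧
    ∀ ε : Fin n → ℝ, (∀ i, ε i = 1 ∨ ε i = -1) → ∃ j, √1 ≤ |∑ i, ε i * v i j| := by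
  refine ⟨1, 1, fun _ _ => 1, ?_, ?_, ?_⟩
  · intro i; simp
  · intro j; exact (card_le_univ _).trans (by simp)
  · intro ε hε
    refine ⟨0, ?_⟩
    rcases hε 0 with h | h <;> simp [h]

theorem result :
    (∀ (n d k : ℕ), k ≤ 4 → ∀ v : Fin n → Fin d → ℝ, (∀ i, ∑ j, v i j ^ 2 ≤ 1) →
      (∀ j, (univ.filter (fun i => v i j ≠ 0)).card ≤ k) →
      ∃ ε : Fin n → ℝ, (∀ i, ε i = 1 ∨ ε i = -1) ∧ ∀ j, |∑ i, ε i * v i j| ≤ √k) ∧
    (∀ k : ℕ, 1 ≤ k → k ≤ 3 → ∃ (n d : ℕ) (v : Fin n → Fin d → ℝ),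
      (∀ i, ∑ j, v i j ^ 2 ≤ 1) ∧ (∀ j, (univ.filter (fun i => v i j ≠ 0)).card ≤ k) ∧
      ∀ ε : Fin n → ℝ, (∀ i, ε i = 1 ∨ ε i = -1) → ∃ j, √k ≤ |∑ i, ε i * v i j|) := by
  refine ⟨fun n d k hk v hv hrow => upper n d k hk v hv hrow, ?_⟩
  intro k hk1 hk3
  have : k = 1 ∨ k = 2 ∨ k = 3 := by omega
  rcases this with rfl | rfl | rfl
  · exact_mod_cast lower1
  · exact_mod_cast lower2
  · exact_mod_cast lower3

end Pool.Agent.LibKomlos64.RowsFour
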